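import Mathlib
import Pool.Agent.Y947.DL.NTB

/-!
# Positive semidefiniteness of the kernel for points averaged over rotations
-/

set_option autoImplicit false

open Finset Polynomial Module Pool.Agent.H388SL Pool.Agent.Y947.DL

namespace Pool.Agent.Y947.DM

lemma hasSum_mult {z : ℂ} (hz : ‖z‖ < 1) {L : ℕ} (hL : 0 < L) :
    HasSum (fun n : ℕ => if L ∣ n then (z ^ n / n).re else 0) (-Real.log ‖1 - z ^ L‖ / L) := by
  have hzL : ‖z ^ L‖ < 1 := by
    rw [norm_pow]; exact pow_lt_one₀ (norm_nonneg _) hz hL.ne'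
  have h := Complex.hasSum_re (Complex.hasSum_taylorSeries_neg_log hzL)
  rw [Complex.neg_re, Complex.log_re] at h
  have h2 := h.div_const (L : ℝ)
  have hinj : Function.Injective (fun m : ℕ => L * m) := fun a b hab => Nat.eq_of_mul_eq_mul_left hL hab
  rw [← hinj.hasSum_iff]
  · have e : (fun i : ℕ => ((z ^ L) ^ i / (i : ℂ)).re / (L : ℝ)) =
        (fun n : ℕ => if L ∣ n then (z ^ n / n).re else 0) ∘ (fun m : ℕ => L * m) := by
      funext m
      rw [Function.comp_apply, if_pos (dvd_mul_right L m), ← pow_mul]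
      have e1 : z ^ (L * m) / ((L * m : ℕ) : ℂ) = z ^ (L * m) / (m : ℂ) / ((L : ℝ) : ℂ) := by
        rw [div_div]
        congr 1
        push_cast
        ring
      rw [e1, Complex.div_ofReal_re]
    rw [← e]
    exact h2
  · intro n hn
    rw [if_neg]
    rintro ⟨m, rfl⟩
    exact hn ⟨m, rfl⟩

/-- positive semidefiniteness of the kernel for points averaged over rotations: the point `w i`
stands for the average over its rotations by the roots of unity of order `r i` -/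
lemma psd_lcm {ι : Type*} (s : Finset ι) (x : ι → ℝ) (w : ι → ℂ) (r : ι → ℕ)
    (hr : ∀ i ∈ s, 0 < r i) (hw : ∀ i ∈ s, ‖w i‖ < 1) :
    0 ≤ ∑ i ∈ s, ∑ j ∈ s, x i * x j *
      (-Real.log ‖1 - (w i * starRingEnd ℂ (w j)) ^ (Nat.lcm (r i) (r j))‖ / (Nat.lcm (r i) (r j))) := by
  classical
  have hnorm : ∀ i ∈ s, ∀ j ∈ s, ‖w i * starRingEnd ℂ (w j)‖ < 1 := fun i hi j hj =>
    norm_mul_conj_lt (hw i hi) (hw j hj).le
  have hsum : ∀ i ∈ s, ∀ j ∈ s, HasSum
      (fun n : ℕ => x i * x j * (if Nat.lcm (r i) (r j) ∣ n then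
        ((w i * starRingEnd ℂ (w j)) ^ n / n).re else 0))
      (x i * x j * (-Real.log ‖1 - (w i * starRingEnd ℂ (w j)) ^ (Nat.lcm (r i) (r j))‖ /
        (Nat.lcm (r i) (r j)))) := fun i hi j hj =>
    (hasSum_mult (hnorm i hi j hj) (Nat.lcm_pos (hr i hi) (hr j hj))).mul_left _
  have h2 : HasSum (fun n : ℕ => ∑ i ∈ s, ∑ j ∈ s,
        x i * x j * (if Nat.lcm (r i) (r j) ∣ n then ((w i * starRingEnd ℂ (w j)) ^ n / n).re else 0))
      (∑ i ∈ s, ∑ j ∈ s, x i * x j * (-Real.log ‖1 - (w i * starRingEnd ℂ (w j)) ^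
        (Nat.lcm (r i) (r j))‖ / (Nat.lcm (r i) (r j)))) :=
    hasSum_sum fun i hi => hasSum_sum fun j hj => hsum i hi j hj
  have hterm : ∀ n : ℕ, (∑ i ∈ s, ∑ j ∈ s,
        x i * x j * (if Nat.lcm (r i) (r j) ∣ n then ((w i * starRingEnd ℂ (w j)) ^ n / n).re else 0))
      = 1 / n * ‖∑ i ∈ s, (if r i ∣ n then (x i : ℂ) * w i ^ n else 0)‖ ^ 2 := by
    intro n
    have e1 : (∑ i ∈ s, ∑ j ∈ s,
        x i * x j * (if Nat.lcm (r i) (r j) ∣ n then ((w i * starRingEnd ℂ (w j)) ^ n / n).re else 0))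
        = (∑ i ∈ s, ∑ j ∈ s, ((1 / n : ℝ) : ℂ) *
          ((if r i ∣ n then (x i : ℂ) * w i ^ n else 0) *
            (if r j ∣ n then (x j : ℂ) * (starRingEnd ℂ (w j)) ^ n else 0))).re := by
      rw [Complex.re_sum]
      refine Finset.sum_congr rfl fun i _ => ?_
      rw [Complex.re_sum]
      refine Finset.sum_congr rfl fun j _ => ?_
      rw [Complex.re_ofReal_mul]
      by_cases h : Nat.lcm (r i) (r j) ∣ n
      · obtain ⟨h3, h4⟩ := Nat.lcm_dvd_iff.mp h
        rw [if_pos h, if_pos h3, if_pos h4]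
        have e3 : (x i : ℂ) * w i ^ n * ((x j : ℂ) * (starRingEnd ℂ (w j)) ^ n) =
            ((x i * x j : ℝ) : ℂ) * (w i * starRingEnd ℂ (w j)) ^ n := by
          push_cast
          ring
        rw [e3, Complex.re_ofReal_mul]
        have e4 : (w i * starRingEnd ℂ (w j)) ^ n / (n : ℂ) =
            ((1 / n : ℝ) : ℂ) * (w i * starRingEnd ℂ (w j)) ^ n := by
          push_cast
          ring
        rw [e4, Complex.re_ofReal_mul]
        ring
      · rw [if_neg h]
        have h5 : ¬ (r i ∣ n ∧ r j ∣ n) := fun h6 => h (Nat.lcm_dvd h6.1 h6.2)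
        by_cases h3 : r i ∣ n
        · rw [if_neg (fun h4 => h5 ⟨h3, h4⟩)]
          simp
        · rw [if_neg h3]
          simp
    have e2 : (∑ i ∈ s, ∑ j ∈ s, ((1 / n : ℝ) : ℂ) *
          ((if r i ∣ n then (x i : ℂ) * w i ^ n else 0) *
            (if r j ∣ n then (x j : ℂ) * (starRingEnd ℂ (w j)) ^ n else 0)))
        = ((1 / n : ℝ) : ℂ) * ((∑ i ∈ s, (if r i ∣ n then (x i : ℂ) * w i ^ n else 0)) *
            starRingEnd ℂ (∑ i ∈ s, (if r i ∣ n then (x i : ℂ) * w i ^ n else 0))) := by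
      rw [map_sum, Finset.sum_mul_sum, Finset.mul_sum]
      refine Finset.sum_congr rfl fun i _ => ?_
      rw [Finset.mul_sum]
      refine Finset.sum_congr rfl fun j _ => ?_
      congr 2
      split_ifs
      · rw [map_mul, map_pow, Complex.conj_ofReal]
      · rw [map_zero]
    rw [e1, e2, Complex.mul_conj, Complex.normSq_eq_norm_sq, ← Complex.ofReal_mul, Complex.ofReal_re]
  simp_rw [hterm] at h2
  exact h2.nonneg fun n => by positivity

/-! ### Arithmetic without distinctness -/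

variable {K : Type*} [Field K] [NumberField K]

lemma sum_roots (β : K) (F : ℂ → ℝ) :
    (finrank ℚ (IntermediateField.adjoin ℚ {β}) : ℝ) * ∑ σ : K →ₐ[ℚ] ℂ, F (σ β) =
      finrank ℚ K * (((minpoly ℚ β).map (algebraMap ℚ ℂ)).roots.map F).sum := by
  set L := IntermediateField.adjoin ℚ {β} with hL
  have h1 := sum_embeddings' β F
  have h2 := minpoly_map_eq (CInj_gen β)
  have hmg : minpoly ℚ (IntermediateField.AdjoinSimple.gen ℚ β) = minpoly ℚ β :=
    IntermediateField.minpoly_gen ℚ β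
  rw [hmg] at h2
  have h3 : (((minpoly ℚ β).map (algebraMap ℚ ℂ)).roots.map F).sum =
      ∑ σ : L →ₐ[ℚ] ℂ, F (σ (IntermediateField.AdjoinSimple.gen ℚ β)) := by
    rw [h2, Finset.prod_eq_multiset_prod]
    have e : (Multiset.map (fun τ : L →ₐ[ℚ] ℂ => X - C (τ (IntermediateField.AdjoinSimple.gen ℚ β)))
        Finset.univ.val) = Multiset.map (fun a : ℂ => X - C a)
        (Multiset.map (fun τ : L →ₐ[ℚ] ℂ => τ (IntermediateField.AdjoinSimple.gen ℚ β)) Finset.univ.val) := by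
      rw [Multiset.map_map]; rfl
    rw [e, Polynomial.roots_multiset_prod_X_sub_C, Multiset.map_map]
    rfl
  rw [h3, h1, nsmul_eq_mul, ← mul_assoc]
  congr 1
  rw [← Nat.cast_mul, finrank_mul_finrank]

lemma lam_conj {β γ : K} {σ τ : K →ₐ[ℚ] ℂ} (h : σ β = τ γ) : lam β = lam γ := by
  have h1 : minpoly ℚ (σ β) = minpoly ℚ β := minpoly.algHom_eq σ σ.injective _
  have h2 : minpoly ℚ (τ γ) = minpoly ℚ γ := minpoly.algHom_eq τ τ.injective _
  have h3 : minpoly ℚ β = minpoly ℚ γ := by rw [← h1, ← h2, h]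
  have h4 := sum_roots β (fun z => Real.log (max 1 ‖z‖))
  have h5 := sum_roots γ (fun z => Real.log (max 1 ‖z‖))
  have h6 : finrank ℚ (IntermediateField.adjoin ℚ {β}) = finrank ℚ (IntermediateField.adjoin ℚ {γ}) := by
    rw [IntermediateField.adjoin.finrank (Algebra.IsIntegral.isIntegral β),
      IntermediateField.adjoin.finrank (Algebra.IsIntegral.isIntegral γ), h3]
  rw [h3, ← h5, h6] at h4
  have h7 : (0:ℝ) < finrank ℚ (IntermediateField.adjoin ℚ {γ}) := by
    exact_mod_cast (finrank_pos : 0 < finrank ℚ (IntermediateField.adjoin ℚ {γ}))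
  exact mul_left_cancel₀ h7.ne' h4

lemma conj_ne' {α : K} (hα : IsIntegral ℤ α) (h0 : α ≠ 0) (hroot : ∀ n : ℕ, 0 < n → α ^ n ≠ 1)
    {p q : ℕ} (hpq : p ≠ q) (σ τ : K →ₐ[ℚ] ℂ) : σ (α ^ p) ≠ τ (α ^ q) := by
  intro h
  have h3 := lam_conj h
  rw [lam_pow, lam_pow] at h3
  have h4 := lam_pos hα h0 hroot
  have h5 : (p : ℝ) = q := mul_right_cancel₀ h4.ne' h3
  exact hpq (by exact_mod_cast h5)

/-- the sum of the logarithms of the differences of conjugates is nonnegative -/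
lemma sum_log_nonneg {x y : K} (hx : IsIntegral ℤ x) (hy : IsIntegral ℤ y)
    (hne : ∀ σ τ : K →ₐ[ℚ] ℂ, σ x ≠ τ y) :
    0 ≤ ∑ σ : K →ₐ[ℚ] ℂ, ∑ τ : K →ₐ[ℚ] ℂ, Real.log ‖σ x - τ y‖ := by
  set L := IntermediateField.adjoin ℚ {y} with hL
  set g := IntermediateField.AdjoinSimple.gen ℚ y with hg
  have hgi : algebraMap L K g = y := IntermediateField.AdjoinSimple.algebraMap_gen ℚ y
  have hgint : IsIntegral ℤ g := by
    have h := hy
    rw [← hgi] at h
    exact (isIntegral_algebraMap_iff (algebraMap L K).injective).mp h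
  have hmin : minpoly ℤ g = minpoly ℤ y := by
    have h := minpoly.algebraMap_eq (A := ℤ) (algebraMap L K).injective g
    rw [← h, hgi]
  have h1 : ∀ σ : K →ₐ[ℚ] ℂ, ∑ τ : K →ₐ[ℚ] ℂ, Real.log ‖σ x - τ y‖ =
      (finrank L K : ℝ) * Real.log ‖σ (aeval x (minpoly ℤ y))‖ := by
    intro σ
    have h2 := sum_embeddings' y (fun z => Real.log ‖σ x - z‖)
    rw [h2, nsmul_eq_mul, map_aevalZ, ← hmin, aeval_minpolyZ_eq hgint (CInj_gen y), norm_prod,
      Real.log_prod]
    intro τ _ h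
    have h3 := norm_eq_zero.mp h
    rw [sub_eq_zero] at h3
    -- extend `τ` to `K`
    let _ : Algebra L ℂ := τ.toRingHom.toAlgebra
    obtain ⟨ρ⟩ : Nonempty (K →ₐ[L] ℂ) := ⟨IsAlgClosed.lift⟩
    apply hne σ ((RingHom.equivRatAlgHom K ℂ) (ρ : K →+* ℂ))
    rw [h3]
    have h4 : ρ (algebraMap L K g) = algebraMap L ℂ g := ρ.commutes g
    rw [hgi] at h4
    exact h4.symm
  simp_rw [h1]
  rw [← Finset.mul_sum]
  apply mul_nonneg (Nat.cast_nonneg _)
  have hE : aeval x (minpoly ℤ y) ≠ 0 := by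
    intro h
    obtain ⟨σ⟩ : Nonempty (K →ₐ[ℚ] ℂ) := ⟨IsAlgClosed.lift⟩
    have h2 := map_aevalZ σ (minpoly ℤ y) x
    rw [h, map_zero] at h2
    have h3 : aeval (σ x) (minpoly ℚ y) = 0 := by
      rw [minpoly.isIntegrallyClosed_eq_field_fractions' ℚ hy, Polynomial.aeval_map_algebraMap]
      exact h2.symm
    have h4 := (NumberField.isAlgebraic K).range_eval_eq_rootSet_minpoly ℂ y
    have h5 : σ x ∈ (minpoly ℚ y).rootSet ℂ := by
      rw [Polynomial.mem_rootSet]
      exact ⟨minpoly.ne_zero (Algebra.IsIntegral.isIntegral y), h3⟩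
    rw [← h4] at h5
    obtain ⟨τ, hτ⟩ := h5
    exact hne σ τ hτ.symm
  have h2 := Real.log_nonneg (one_le_prod_norm (isIntegral_aevalZ hx (minpoly ℤ y)) hE)
  rwa [Real.log_prod] at h2
  intro σ _
  exact norm_ne_zero_iff.mpr ((map_ne_zero σ).mpr hE)

end Pool.Agent.Y947.DM
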