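import Mathlib
import Pool.Agent.Y947.DM.Lcm

/-!
# The conjugates over a cyclotomic field
-/

set_option autoImplicit false

open Finset Polynomial Module IntermediateField Pool.Agent.H388SL Pool.Agent.Y947.DL

namespace Pool.Agent.Y947.DM

variable {K : Type*} [Field K] [NumberField K]

lemma exists_embedding {ζ : K} {p : ℕ} (hp : p.Prime) (hζ : IsPrimitiveRoot ζ p) {ω : ℂ}
    (hω : IsPrimitiveRoot ω p) : ∃ τ : K →ₐ[ℚ] ℂ, τ ζ = ω := by
  have h4 := (NumberField.isAlgebraic K).range_eval_eq_rootSet_minpoly ℂ ζ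
  have h5 : ω ∈ (minpoly ℚ ζ).rootSet ℂ := by
    rw [Polynomial.mem_rootSet]
    refine ⟨minpoly.ne_zero (Algebra.IsIntegral.isIntegral ζ), ?_⟩
    rw [← cyclotomic_eq_minpoly_rat hζ hp.pos, Polynomial.aeval_def, ← Polynomial.eval_map,
      map_cyclotomic]
    exact hω.isRoot_cyclotomic hp.pos
  rw [← h4] at h5
  exact h5

/-- number of embeddings with a given value at a root of unity -/
lemma card_over {ζ : K} {p : ℕ} (hp : p.Prime) (hζ : IsPrimitiveRoot ζ p) {ω : ℂ}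
    (hω : IsPrimitiveRoot ω p) [DecidableEq ℂ] :
    ((Finset.univ : Finset (K →ₐ[ℚ] ℂ)).filter (fun τ => τ ζ = ω)).card =
      finrank (adjoin ℚ {ζ}) K := by
  have h1 := sum_embeddings' ζ (fun z => if z = ω then (1:ℕ) else 0)
  rw [Finset.card_filter, h1]
  obtain ⟨τ, hτ⟩ := exists_embedding hp hζ hω
  have h2 : ∑ σ : (adjoin ℚ {ζ}) →ₐ[ℚ] ℂ,
      (if σ (AdjoinSimple.gen ℚ ζ) = ω then (1:ℕ) else 0) = 1 := by
    obtain ⟨τ', h3⟩ : ∃ τ' : (adjoin ℚ {ζ}) →ₐ[ℚ] ℂ, τ' (AdjoinSimple.gen ℚ ζ) = ω := by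
      refine ⟨τ.comp (adjoin ℚ {ζ}).val, ?_⟩
      rw [← hτ]
      rfl
    refine (Finset.sum_eq_single τ' ?_ ?_).trans ?_
    · intro σ _ hσ
      rw [if_neg]
      intro h
      exact hσ (CInj_gen ζ (by dsimp only; rw [h, h3]))
    · intro h
      exact absurd (Finset.mem_univ _) h
    · rw [if_pos h3]
  rw [h2, smul_eq_mul, mul_one]

/-- the conjugates over the cyclotomic field -/
lemma prod_over {α ζ : K} (hc : CInj α) {p : ℕ} (hp : p.Prime) (hζ : IsPrimitiveRoot ζ p)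
    (τ₀ : K →ₐ[ℚ] ℂ) [DecidableEq ℂ] :
    ∏ τ ∈ (Finset.univ : Finset (K →ₐ[ℚ] ℂ)).filter (fun τ => τ ζ = τ₀ ζ), (X - C (τ α)) =
      (minpoly (adjoin ℚ {ζ}) α).map ((τ₀ : K →+* ℂ).comp (algebraMap (adjoin ℚ {ζ}) K)) := by
  obtain ⟨T, hT⟩ : ∃ T, T = (Finset.univ : Finset (K →ₐ[ℚ] ℂ)).filter (fun τ => τ ζ = τ₀ ζ) := ⟨_, rfl⟩
  rw [← hT]
  have hω : IsPrimitiveRoot (τ₀ ζ) p := hζ.map_of_injective τ₀.injective
  have hTc : T.card = finrank (adjoin ℚ {ζ}) K := by rw [hT]; exact card_over hp hζ hω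
  have hint : IsIntegral (adjoin ℚ {ζ}) α := Algebra.IsIntegral.isIntegral α
  have hm1 : (∏ τ ∈ T, (X - C (τ α))).Monic := monic_prod_of_monic _ _ fun τ _ => monic_X_sub_C _
  have hm2 : ((minpoly (adjoin ℚ {ζ}) α).map
      ((τ₀ : K →+* ℂ).comp (algebraMap (adjoin ℚ {ζ}) K))).Monic := (minpoly.monic hint).map _
  have hdvd : (∏ τ ∈ T, (X - C (τ α))) ∣ (minpoly (adjoin ℚ {ζ}) α).map
      ((τ₀ : K →+* ℂ).comp (algebraMap (adjoin ℚ {ζ}) K)) := by
    apply Finset.prod_dvd_of_coprime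
    · intro a _ b _ hab
      exact pairwise_coprime_X_sub_C hc hab
    · intro τ hτ
      rw [hT, Finset.mem_filter] at hτ
      rw [dvd_iff_isRoot, IsRoot.def, eval_map]
      have h1 : (τ₀ : K →+* ℂ).comp (algebraMap (adjoin ℚ {ζ}) K) =
          (τ : K →+* ℂ).comp (algebraMap (adjoin ℚ {ζ}) K) := by
        have h2 : τ₀.comp (adjoin ℚ {ζ}).val = τ.comp (adjoin ℚ {ζ}).val := by
          apply CInj_gen ζ
          exact hτ.2.symm
        ext x
        exact congrArg (fun f => f x) h2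
      rw [h1]
      have h3 : eval₂ (algebraMap (adjoin ℚ {ζ}) K) α (minpoly (adjoin ℚ {ζ}) α) = 0 :=
        minpoly.aeval (adjoin ℚ {ζ}) α
      have h4 := Polynomial.hom_eval₂ (minpoly (adjoin ℚ {ζ}) α) (algebraMap (adjoin ℚ {ζ}) K)
        (τ : K →+* ℂ) α
      rw [h3, map_zero] at h4
      exact h4.symm
  have hdeg : ((minpoly (adjoin ℚ {ζ}) α).map
      ((τ₀ : K →+* ℂ).comp (algebraMap (adjoin ℚ {ζ}) K))).natDegree ≤
      (∏ τ ∈ T, (X - C (τ α))).natDegree := by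
    rw [natDegree_prod_of_monic _ _ fun τ _ => monic_X_sub_C _]
    simp only [natDegree_X_sub_C, Finset.sum_const, smul_eq_mul, mul_one]
    rw [(minpoly.monic hint).natDegree_map, hTc]
    exact minpoly.natDegree_le α
  exact (eq_of_monic_of_dvd_of_natDegree_le hm1 hm2 hdvd hdeg).symm

/-- the coefficients are integral polynomials in the root of unity -/
lemma exists_polys {α ζ : K} (hα : IsIntegral ℤ α) {p : ℕ} (hp : p.Prime)
    (hζ : IsPrimitiveRoot ζ p) (i : ℕ) : ∃ g : ℤ[X],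
      aeval ζ g = algebraMap (adjoin ℚ {ζ}) K ((minpoly (adjoin ℚ {ζ}) α).coeff i) := by
  have hfact : Fact p.Prime := ⟨hp⟩
  have hne : NeZero p := ⟨hp.ne_zero⟩
  have hcyc : IsCyclotomicExtension {p} ℚ (adjoin ℚ {ζ}) :=
    hζ.intermediateField_adjoin_isCyclotomicExtension (K := ℚ)
  have hζ' : IsPrimitiveRoot (AdjoinSimple.gen ℚ ζ) p := by
    have h1 : algebraMap (adjoin ℚ {ζ}) K (AdjoinSimple.gen ℚ ζ) = ζ := AdjoinSimple.algebraMap_gen ℚ ζ
    apply IsPrimitiveRoot.of_map_of_injective (f := algebraMap (adjoin ℚ {ζ}) K) _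
      (algebraMap (adjoin ℚ {ζ}) K).injective
    rw [h1]; exact hζ
  have hic := IsCyclotomicExtension.Rat.isIntegralClosure_adjoin_singleton_of_prime hζ'
  have hint : IsIntegral ℤ ((minpoly (adjoin ℚ {ζ}) α).coeff i) := by
    apply Polynomial.isIntegral_coeff_of_dvd (minpoly ℤ α) _ (minpoly.monic hα)
      (minpoly.monic (Algebra.IsIntegral.isIntegral α))
    apply minpoly.dvd
    rw [Polynomial.aeval_map_algebraMap, minpoly.aeval]
  obtain ⟨y, hy⟩ := hic.isIntegral_iff.mp hint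
  have hy2 : (y : adjoin ℚ {ζ}) = (minpoly (adjoin ℚ {ζ}) α).coeff i := hy
  have hy3 : ∀ z : adjoin ℚ {ζ}, z ∈ Algebra.adjoin ℤ {AdjoinSimple.gen ℚ ζ} →
      ∃ g : ℤ[X], aeval (AdjoinSimple.gen ℚ ζ) g = z := by
    intro z hz
    rw [Algebra.adjoin_singleton_eq_range_aeval] at hz
    exact hz
  obtain ⟨g, hg⟩ := hy3 y y.2
  refine ⟨g, ?_⟩
  rw [← hy2, ← hg]
  have h1 : algebraMap (adjoin ℚ {ζ}) K (AdjoinSimple.gen ℚ ζ) = ζ := AdjoinSimple.algebraMap_gen ℚ ζ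
  conv_lhs => rw [← h1]
  exact Polynomial.aeval_algebraMap_apply K (AdjoinSimple.gen ℚ ζ) g

end Pool.Agent.Y947.DM
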