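import Mathlib
import Pool.Agent.Y947.DM.RamA

/-!
# Ramified congruences
-/

set_option autoImplicit false

open Finset Polynomial Module IntermediateField Pool.Agent.H388SL Pool.Agent.Y947.DL

namespace Pool.Agent.Y947.DM

/-- the ring of algebraic integers -/
abbrev AI : Type := integralClosure ℤ ℂ

variable {K : Type*} [Field K] [NumberField K]

/-- conjugates as algebraic integers -/
noncomputable def cj {α : K} (hα : IsIntegral ℤ α) (τ : K →ₐ[ℚ] ℂ) : AI :=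
  ⟨τ α, map_isIntegral_int (τ : K →+* ℂ) hα⟩

lemma cj_coe {α : K} (hα : IsIntegral ℤ α) (τ : K →ₐ[ℚ] ℂ) : ((cj hα τ : AI) : ℂ) = τ α := rfl

lemma AI_ext {x y : AI} (h : (x : ℂ) = (y : ℂ)) : x = y := Subtype.ext h

lemma primRoot_coe {x : AI} {p : ℕ} : IsPrimitiveRoot x p ↔ IsPrimitiveRoot (x : ℂ) p := by
  constructor
  · intro h
    exact h.map_of_injective (f := algebraMap AI ℂ) Subtype.val_injective
  · intro h
    exact IsPrimitiveRoot.of_map_of_injective (f := algebraMap AI ℂ) h Subtype.val_injective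

lemma dvd_pi_pow {ω : AI} {p : ℕ} (hp : p.Prime) (hω : IsPrimitiveRoot ω p) :
    (p : AI) ∣ (1 - ω) ^ (p - 1) := by
  have hfact : Fact p.Prime := ⟨hp⟩
  have hne : NeZero p := ⟨hp.ne_zero⟩
  have h1 := eval_one_cyclotomic_prime (R := AI) (p := p)
  rw [cyclotomic_eq_prod_X_sub_primitiveRoots hω, eval_prod] at h1
  simp only [eval_sub, eval_X, eval_C] at h1
  rw [← h1]
  have h2 : ∏ μ ∈ primitiveRoots p AI, (1 - ω) = (1 - ω) ^ (p - 1) := by
    rw [Finset.prod_const, hω.card_primitiveRoots, Nat.totient_prime hp]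
  rw [← h2]
  apply Finset.prod_dvd_prod_of_dvd
  intro μ hμ
  rw [mem_primitiveRoots hp.pos] at hμ
  obtain ⟨i, _, hi⟩ := hμ.eq_pow_of_pow_eq_one hω.pow_eq_one
  rw [← hi]
  have h3 := sub_dvd_pow_sub_pow (1:AI) μ i
  rwa [one_pow] at h3

/-- the main congruence -/
lemma pow_dvd_prod {α ζ : K} (hα : IsIntegral ℤ α) (hc : CInj α) {p : ℕ} (hp : p.Prime)
    (hp2 : p ≠ 2) (hζ : IsPrimitiveRoot ζ p) (σ : K →ₐ[ℚ] ℂ) :
    (p : AI) ^ p ∣ ∏ τ : K →ₐ[ℚ] ℂ, (cj hα σ ^ p - cj hα τ ^ (p ^ 2)) := by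
  classical
  have hfact : Fact p.Prime := ⟨hp⟩
  have hne : NeZero p := ⟨hp.ne_zero⟩
  have hodd : Odd p := hp.odd_of_ne_two hp2
  have hζi : IsIntegral ℤ ζ := hζ.isIntegral hp.pos
  set ω : AI := cj hζi σ with hωdef
  have hω : IsPrimitiveRoot ω p := by
    rw [primRoot_coe]
    exact hζ.map_of_injective σ.injective
  set I : Ideal AI := Ideal.span {1 - ω} with hI
  set mk := Ideal.Quotient.mk I with hmk
  have hmkω : mk ω = 1 := by
    have h1 : mk (1 - ω) = 0 := by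
      rw [hmk, Ideal.Quotient.eq_zero_iff_mem, hI]
      exact Ideal.mem_span_singleton_self _
    rw [map_sub, map_one, sub_eq_zero] at h1
    exact h1.symm
  have hmk1 : ∀ u : AI, u ^ p = 1 → mk u = 1 := by
    intro u hu
    obtain ⟨i, _, hi⟩ := hω.eq_pow_of_pow_eq_one hu
    rw [← hi, map_pow, hmkω, one_pow]
  have hp0 : (p : AI ⧸ I) = 0 := by
    have h1 := hω.geom_sum_eq_zero hp.one_lt
    have h2 := congrArg mk h1
    rw [map_sum, map_zero] at h2
    simp only [map_pow, hmkω, one_pow, Finset.sum_const, Finset.card_range, nsmul_eq_mul, mul_one] at h2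
    exact h2
  have hsubpow : ∀ a b : AI ⧸ I, (a - b) ^ p = a ^ p - b ^ p := by
    intro a b
    have h1 := add_pow_prime_eq hp (a - b) b
    rw [hp0, zero_mul, zero_mul, zero_mul, add_zero, sub_add_cancel] at h1
    rw [h1, add_sub_cancel_right]
  have haevalpow : ∀ (P : ℤ[X]) (a : AI ⧸ I), (aeval a P) ^ p = aeval (a ^ p) P := by
    intro P a
    obtain ⟨v, hv⟩ := expand_eq p P
    have h1 : aeval a (expand ℤ p P) = aeval (a ^ p) P := by rw [expand_aeval]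
    rw [← h1, hv]
    simp [hp0]
  choose g hg using exists_polys hα hp hζ
  set N := (minpoly (adjoin ℚ {ζ}) α).natDegree with hN
  set P : ℤ[X] := ∑ i ∈ range (N + 1), C ((g i).eval 1) * X ^ i with hP
  have claim1 : ∀ (τ₀ : K →ₐ[ℚ] ℂ) (t : AI),
      mk (∏ τ ∈ (Finset.univ : Finset (K →ₐ[ℚ] ℂ)).filter (fun τ => τ ζ = τ₀ ζ), (t - cj hα τ)) =
        aeval (mk t) P := by
    intro τ₀ t
    have e1 : ∏ τ ∈ (Finset.univ : Finset (K →ₐ[ℚ] ℂ)).filter (fun τ => τ ζ = τ₀ ζ), (t - cj hα τ) =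
        ∑ i ∈ range (N + 1), aeval (cj hζi τ₀) (g i) * t ^ i := by
      apply AI_ext
      have h1 := congrArg (fun Q => Q.eval (t : ℂ)) (prod_over hc hp hζ τ₀)
      simp only [eval_prod, eval_sub, eval_X, eval_C] at h1
      rw [eval_map, eval₂_eq_sum_range] at h1
      have e2 : ((∏ τ ∈ (Finset.univ : Finset (K →ₐ[ℚ] ℂ)).filter (fun τ => τ ζ = τ₀ ζ),
          (t - cj hα τ) : AI) : ℂ) =
          ∏ τ ∈ (Finset.univ : Finset (K →ₐ[ℚ] ℂ)).filter (fun τ => τ ζ = τ₀ ζ), ((t : ℂ) - τ α) := by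
        rw [SubmonoidClass.coe_finsetProd]
        rfl
      rw [e2, h1, AddSubmonoidClass.coe_finsetSum]
      refine Finset.sum_congr rfl fun i _ => ?_
      have e3 : ((aeval (cj hζi τ₀) (g i) * t ^ i : AI) : ℂ) = aeval (τ₀ ζ) (g i) * (t : ℂ) ^ i := by
        rw [MulMemClass.coe_mul, SubmonoidClass.coe_pow, Polynomial.aeval_subalgebra_coe]
        rfl
      rw [e3, ← map_aevalZ, hg i]
      rfl
    rw [e1, map_sum, hP, map_sum]
    refine Finset.sum_congr rfl fun i _ => ?_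
    rw [map_mul, map_pow, map_mul, map_pow, aeval_X, aeval_C]
    congr 1
    have e4 : mk (aeval (cj hζi τ₀) (g i)) = aeval (mk (cj hζi τ₀)) (g i) := by
      have := Polynomial.hom_eval₂ (g i) (algebraMap ℤ AI) mk (cj hζi τ₀)
      rw [Polynomial.aeval_def, Polynomial.aeval_def, this]
      congr 1
    rw [e4, hmk1 _ (by
      apply AI_ext
      rw [SubmonoidClass.coe_pow, cj_coe, ← map_pow, hζ.pow_eq_one, map_one]
      rfl)]
    have e5 := Polynomial.aeval_algebraMap_apply_eq_algebraMap_eval (A := AI ⧸ I) (1:ℤ) (g i)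
    rw [map_one] at e5
    exact e5
  have claim2 : aeval (mk (cj hα σ)) P = 0 := by
    rw [← claim1 σ (cj hα σ), Finset.prod_eq_zero (i := σ), map_zero]
    · rw [Finset.mem_filter]
      exact ⟨Finset.mem_univ _, rfl⟩
    · rw [sub_self]
  have claim3 : ∀ (τ₀ : K →ₐ[ℚ] ℂ) (x : AI), mk x = mk (cj hα σ) →
      mk (∏ τ ∈ (Finset.univ : Finset (K →ₐ[ℚ] ℂ)).filter (fun τ => τ ζ = τ₀ ζ),
        (x - cj hα τ ^ p)) = 0 := by
    intro τ₀ x hx
    obtain ⟨t', ht'⟩ := IsAlgClosed.exists_pow_nat_eq (x : ℂ) hp.pos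
    have hti : IsIntegral ℤ t' := by
      have h1 : IsIntegral ℤ (t' ^ p) := by rw [ht']; exact x.2
      exact h1.of_pow hp.pos
    set t : AI := ⟨t', hti⟩ with ht
    have htx : t ^ p = x := AI_ext ht'
    have h2 : mk (∏ τ ∈ (Finset.univ : Finset (K →ₐ[ℚ] ℂ)).filter (fun τ => τ ζ = τ₀ ζ),
        (x - cj hα τ ^ p)) = (mk (∏ τ ∈ (Finset.univ : Finset (K →ₐ[ℚ] ℂ)).filter
          (fun τ => τ ζ = τ₀ ζ), (t - cj hα τ))) ^ p := by
      rw [map_prod, map_prod, ← Finset.prod_pow]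
      refine Finset.prod_congr rfl fun τ _ => ?_
      rw [map_sub, map_sub, hsubpow, ← htx, map_pow, map_pow]
    rw [h2, claim1, haevalpow, ← map_pow, htx, hx, claim2]
  have claim4 : ∀ x : AI, mk x = mk (cj hα σ) →
      (1 - ω) ^ (p - 1) ∣ ∏ τ : K →ₐ[ℚ] ℂ, (x - cj hα τ ^ p) := by
    intro x hx
    have h1 : ∏ μ ∈ primitiveRoots p AI, (1 - ω) = (1 - ω) ^ (p - 1) := by
      rw [Finset.prod_const, hω.card_primitiveRoots, Nat.totient_prime hp]
    have hmaps : ∀ τ ∈ (Finset.univ : Finset (K →ₐ[ℚ] ℂ)), cj hζi τ ∈ primitiveRoots p AI := by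
      intro τ _
      rw [mem_primitiveRoots hp.pos, primRoot_coe]
      exact hζ.map_of_injective τ.injective
    rw [← h1, ← Finset.prod_fiberwise_of_maps_to hmaps]
    apply Finset.prod_dvd_prod_of_dvd
    intro μ hμ
    rw [mem_primitiveRoots hp.pos, primRoot_coe] at hμ
    obtain ⟨τ₀, hτ₀⟩ := exists_embedding hp hζ hμ
    have h2 : (Finset.univ : Finset (K →ₐ[ℚ] ℂ)).filter (fun τ => cj hζi τ = μ) =
        (Finset.univ : Finset (K →ₐ[ℚ] ℂ)).filter (fun τ => τ ζ = τ₀ ζ) := by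
      apply Finset.filter_congr
      intro τ _
      constructor
      · intro h
        rw [hτ₀, ← h]
        rfl
      · intro h
        apply AI_ext
        rw [cj_coe, h, hτ₀]
    rw [h2, ← Ideal.mem_span_singleton, ← hI, ← Ideal.Quotient.eq_zero_iff_mem]
    exact claim3 τ₀ x hx
  have claim5 : ∏ τ : K →ₐ[ℚ] ℂ, (cj hα σ ^ p - cj hα τ ^ (p ^ 2)) =
      ∏ μ ∈ nthRootsFinset p (1:AI), ∏ τ : K →ₐ[ℚ] ℂ, (cj hα σ - μ * cj hα τ ^ p) := by
    rw [Finset.prod_comm]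
    refine Finset.prod_congr rfl fun τ _ => ?_
    have h1 := hω.pow_sub_pow_eq_prod_sub_mul (cj hα σ) (cj hα τ ^ p) hp.pos
    rw [← h1, ← pow_mul, pow_two]
  rw [claim5]
  have h1 : ∏ μ ∈ nthRootsFinset p (1:AI), (p : AI) = (p : AI) ^ p := by
    rw [Finset.prod_const, hω.card_nthRootsFinset]
  rw [← h1]
  apply Finset.prod_dvd_prod_of_dvd
  intro μ hμ
  rw [mem_nthRootsFinset hp.pos] at hμ
  refine (dvd_pi_pow hp hω).trans ?_
  have h2 : ∏ τ : K →ₐ[ℚ] ℂ, (cj hα σ - μ * cj hα τ ^ p) =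
      μ ^ (Fintype.card (K →ₐ[ℚ] ℂ)) * ∏ τ : K →ₐ[ℚ] ℂ, (μ ^ (p - 1) * cj hα σ - cj hα τ ^ p) := by
    rw [← Finset.card_univ, ← Finset.prod_const, ← Finset.prod_mul_distrib]
    refine Finset.prod_congr rfl fun τ _ => ?_
    rw [mul_sub, ← mul_assoc, ← pow_succ', Nat.sub_add_cancel hp.one_lt.le, hμ, one_mul]
  rw [h2]
  apply Dvd.dvd.mul_left
  apply claim4
  rw [map_mul, map_pow, hmk1 μ hμ, one_pow, one_mul]

end Pool.Agent.Y947.DM
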