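import Mathlib
import Pool.Agent.Y947.DM.RamB

/-!
# The gain at a ramified prime
-/

set_option autoImplicit false

open Finset Polynomial Module Pool.Agent.H388SL Pool.Agent.Y947.DL

namespace Pool.Agent.Y947.DM

variable {K : Type*} [Field K] [NumberField K]

lemma prod_sub_embeddings {y : K} (hy : IsIntegral ℤ y) (z : ℂ) :
    ∏ τ : K →ₐ[ℚ] ℂ, (z - τ y) =
      (aeval z (minpoly ℤ y)) ^ (finrank (IntermediateField.adjoin ℚ {y}) K) := by
  obtain ⟨m, hm⟩ : ∃ m, m = finrank (IntermediateField.adjoin ℚ {y}) K := ⟨_, rfl⟩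
  rw [← hm]
  have hgi : algebraMap (IntermediateField.adjoin ℚ {y}) K (IntermediateField.AdjoinSimple.gen ℚ y) = y :=
    IntermediateField.AdjoinSimple.algebraMap_gen ℚ y
  have hgint : IsIntegral ℤ (IntermediateField.AdjoinSimple.gen ℚ y) := by
    have h := hy
    rw [← hgi] at h
    exact (isIntegral_algebraMap_iff (algebraMap (IntermediateField.adjoin ℚ {y}) K).injective).mp h
  have hmin : minpoly ℤ (IntermediateField.AdjoinSimple.gen ℚ y) = minpoly ℤ y := by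
    have h := minpoly.algebraMap_eq (A := ℤ) (algebraMap (IntermediateField.adjoin ℚ {y}) K).injective
      (IntermediateField.AdjoinSimple.gen ℚ y)
    rw [← h, hgi]
  have h1 := sum_embeddings' (M := Additive ℂ) y (fun u => Additive.ofMul (z - u))
  have h2 := congrArg Additive.toMul h1
  rw [toMul_sum, toMul_nsmul, toMul_sum] at h2
  simp only [toMul_ofMul] at h2
  rw [h2, ← hm, ← aeval_minpolyZ_eq hgint (CInj_gen y), hmin]

/-- the gain at a prime `p` such that the field contains the roots of unity of order `p` -/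
theorem ram_gain {α ζ : K} (hα : IsIntegral ℤ α) (h0 : α ≠ 0) (hroot : ∀ n : ℕ, 0 < n → α ^ n ≠ 1)
    (hc : CInj α) {p : ℕ} (hp : p.Prime) (hp2 : p ≠ 2) (hζ : IsPrimitiveRoot ζ p) :
    finrank ℚ K * (p * Real.log p) ≤
      ∑ σ : K →ₐ[ℚ] ℂ, ∑ τ : K →ₐ[ℚ] ℂ, Real.log ‖σ (α ^ p) - τ (α ^ (p ^ 2))‖ := by
  have hpp : p ≠ p ^ 2 := by
    have := hp.one_lt
    nlinarith
  have hne := fun σ τ : K →ₐ[ℚ] ℂ => conj_ne' hα h0 hroot hpp σ τ
  have hp0 : (0:ℝ) < p := by exact_mod_cast hp.pos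
  set m := finrank (IntermediateField.adjoin ℚ {α ^ (p ^ 2)}) K with hm
  set E : K := (aeval (α ^ p) (minpoly ℤ (α ^ (p ^ 2)))) ^ m with hE
  have hσE : ∀ σ : K →ₐ[ℚ] ℂ, σ E = ∏ τ : K →ₐ[ℚ] ℂ, (σ (α ^ p) - τ (α ^ (p ^ 2))) := by
    intro σ
    rw [prod_sub_embeddings (hα.pow _), hE, map_pow, map_aevalZ]
  have hE0 : E ≠ 0 := by
    intro h
    obtain ⟨σ⟩ : Nonempty (K →ₐ[ℚ] ℂ) := ⟨IsAlgClosed.lift⟩
    have h2 := hσE σ
    rw [h, map_zero] at h2
    obtain ⟨τ, _, hτ⟩ := Finset.prod_eq_zero_iff.mp h2.symm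
    exact hne σ τ (sub_eq_zero.mp hτ)
  have hpK : (p : K) ≠ 0 := by exact_mod_cast hp.ne_zero
  set Z : K := E / (p : K) ^ p with hZ
  have hZ0 : Z ≠ 0 := div_ne_zero hE0 (pow_ne_zero _ hpK)
  have hEZ : E = (p : K) ^ p * Z := by rw [hZ]; field_simp
  have hZi : IsIntegral ℤ Z := by
    obtain ⟨σ⟩ : Nonempty (K →ₐ[ℚ] ℂ) := ⟨IsAlgClosed.lift⟩
    have h1 : IsIntegral ℤ (σ Z) := by
      obtain ⟨y, hy⟩ := pow_dvd_prod hα hc hp hp2 hζ σ
      have h2 := congrArg (fun u : AI => (u : ℂ)) hy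
      rw [SubmonoidClass.coe_finsetProd] at h2
      have h3 : ∀ τ : K →ₐ[ℚ] ℂ, ((cj hα σ ^ p - cj hα τ ^ (p ^ 2) : AI) : ℂ) =
          σ (α ^ p) - τ (α ^ (p ^ 2)) := by
        intro τ
        rw [AddSubgroupClass.coe_sub, SubmonoidClass.coe_pow, SubmonoidClass.coe_pow, cj_coe, cj_coe,
          map_pow, map_pow]
      simp_rw [h3] at h2
      rw [← hσE σ, hEZ, map_mul, map_pow, map_natCast, MulMemClass.coe_mul, SubmonoidClass.coe_pow] at h2
      have h4 : (((p : AI)) : ℂ) = (p : ℂ) := rfl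
      rw [h4] at h2
      have h5 : σ Z = y := mul_left_cancel₀ (pow_ne_zero _ (by exact_mod_cast hp.ne_zero)) h2
      rw [h5]
      exact y.2
    exact (isIntegral_algHom_iff (σ.restrictScalars ℤ) σ.injective).mp h1
  have h1 := Real.log_nonneg (one_le_prod_norm hZi hZ0)
  rw [Real.log_prod (fun σ _ => norm_ne_zero_iff.mpr ((map_ne_zero σ).mpr hZ0))] at h1
  have h2 : ∀ σ : K →ₐ[ℚ] ℂ, ∑ τ : K →ₐ[ℚ] ℂ, Real.log ‖σ (α ^ p) - τ (α ^ (p ^ 2))‖ =
      p * Real.log p + Real.log ‖σ Z‖ := by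
    intro σ
    rw [← Real.log_prod (fun τ _ => norm_ne_zero_iff.mpr (sub_ne_zero.mpr (hne σ τ))), ← norm_prod,
      ← hσE σ, hEZ, map_mul, map_pow, map_natCast, norm_mul, norm_pow, Complex.norm_natCast,
      Real.log_mul (by positivity) (norm_ne_zero_iff.mpr ((map_ne_zero σ).mpr hZ0)), Real.log_pow]
  simp_rw [h2]
  rw [Finset.sum_add_distrib, Finset.sum_const, Finset.card_univ, AlgHom.card, nsmul_eq_mul]
  linarith

end Pool.Agent.Y947.DM
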