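import Mathlib
import Pool.Agent.Y947.DM.RamC

/-!
# The conjugates of `α` among all numbers whose `m`-th power is conjugate to `α ^ m`
-/

set_option autoImplicit false

open Finset Polynomial Module Pool.Agent.H388SL Pool.Agent.Y947.DL

namespace Pool.Agent.Y947.DM

variable {K : Type*} [Field K] [NumberField K]

lemma sum_nthRoots {m : ℕ} (hm : 0 < m) (Ψ : ℂ → ℝ) (a : ℂ) :
    ((nthRoots m (a ^ m)).map Ψ).sum = ∑ ζ ∈ nthRootsFinset m (1:ℂ), Ψ (ζ * a) := by
  classical
  have hp := Complex.isPrimitiveRoot_exp m hm.ne'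
  have h1 := hp.nthRoots_eq (α := a) rfl
  have h2 := hp.nthRoots_eq (α := (1:ℂ)) (a := 1) (one_pow m)
  have h3 : nthRoots m (a ^ m) = (nthRoots m (1:ℂ)).map (fun ζ => ζ * a) := by
    rw [h1, h2, Multiset.map_map]
    refine Multiset.map_congr rfl fun i _ => ?_
    rw [Function.comp_apply, mul_one]
  rw [h3, Multiset.map_map, nthRootsFinset_def, Finset.sum_eq_multiset_sum, Multiset.toFinset_val,
    hp.nthRoots_one_nodup.dedup]
  rfl

lemma log_prod_multiset (s : Multiset ℂ) (u : ℂ → ℂ) (h : ∀ x ∈ s, u x ≠ 0) :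
    Real.log ‖(s.map u).prod‖ = (s.map (fun x => Real.log ‖u x‖)).sum := by
  induction s using Multiset.induction_on with
  | empty => simp
  | cons a s ih =>
    rw [Multiset.map_cons, Multiset.prod_cons, Multiset.map_cons, Multiset.sum_cons, norm_mul,
      Real.log_mul, ih (fun x hx => h x (Multiset.mem_cons_of_mem hx))]
    · exact norm_ne_zero_iff.mpr (h a (Multiset.mem_cons_self a s))
    · rw [norm_ne_zero_iff]
      apply Multiset.prod_ne_zero
      intro h0
      obtain ⟨x, hx, hx0⟩ := Multiset.mem_map.mp h0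
      exact h x (Multiset.mem_cons_of_mem hx) hx0

/-- the other conjugates -/
theorem exists_cofactor {α : K} (hα : IsIntegral ℤ α) (h0 : α ≠ 0) (hc : CInj α) {m : ℕ}
    (hm : 0 < m) : ∃ h : ℤ[X], h.Monic ∧ aeval α h ≠ 0 ∧ ∀ Ψ : ℂ → ℝ,
      ∑ τ : K →ₐ[ℚ] ℂ, ∑ ζ ∈ nthRootsFinset m (1:ℂ), Ψ (ζ * τ α) =
        finrank (IntermediateField.adjoin ℚ {α ^ m}) K * (∑ τ : K →ₐ[ℚ] ℂ, Ψ (τ α) +
          ((h.map (Int.castRingHom ℂ)).roots.map Ψ).sum) := by
  have hfm : (minpoly ℤ α).Monic := minpoly.monic hα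
  have hGm : (minpoly ℤ (α ^ m)).Monic := minpoly.monic (hα.pow m)
  have hFm : (expand ℤ m (minpoly ℤ (α ^ m))).Monic := hGm.expand hm
  have hdvd : minpoly ℤ α ∣ expand ℤ m (minpoly ℤ (α ^ m)) := by
    apply minpoly.isIntegrallyClosed_dvd hα
    rw [Polynomial.expand_aeval, minpoly.aeval]
  obtain ⟨h, hF⟩ := hdvd
  have hhm : h.Monic := by
    have h1 := hFm
    rw [hF] at h1
    exact hfm.of_mul_monic_left h1
  refine ⟨h, hhm, ?_, ?_⟩
  · intro hh
    have h1 := congrArg (fun Q => aeval α (derivative Q)) hF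
    rw [derivative_mul, map_add, map_mul, map_mul, minpoly.aeval, hh, zero_mul, mul_zero, add_zero,
      derivative_expand, map_mul, expand_aeval, map_mul, map_pow, aeval_X, map_natCast] at h1
    have h2 : aeval (α ^ m) (derivative (minpoly ℤ (α ^ m))) ≠ 0 := by
      intro h3
      have hirr : Irreducible (minpoly ℚ (α ^ m)) := minpoly.irreducible (Algebra.IsIntegral.isIntegral _)
      have h4 := hirr.separable.aeval_derivative_ne_zero (minpoly.aeval ℚ (α ^ m))
      apply h4
      rw [minpoly.isIntegrallyClosed_eq_field_fractions' ℚ (hα.pow m), derivative_map,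
        Polynomial.aeval_map_algebraMap]
      exact h3
    have h3 : (m : K) ≠ 0 := by exact_mod_cast hm.ne'
    exact (mul_ne_zero h2 (mul_ne_zero h3 (pow_ne_zero _ h0))) h1
  · intro Ψ
    have hgi : algebraMap (IntermediateField.adjoin ℚ {α ^ m}) K
        (IntermediateField.AdjoinSimple.gen ℚ (α ^ m)) = α ^ m :=
      IntermediateField.AdjoinSimple.algebraMap_gen ℚ (α ^ m)
    have hgint : IsIntegral ℤ (IntermediateField.AdjoinSimple.gen ℚ (α ^ m)) := by
      have h := hα.pow m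
      rw [← hgi] at h
      exact (isIntegral_algebraMap_iff
        (algebraMap (IntermediateField.adjoin ℚ {α ^ m}) K).injective).mp h
    have hmin : minpoly ℤ (IntermediateField.AdjoinSimple.gen ℚ (α ^ m)) = minpoly ℤ (α ^ m) := by
      have h := minpoly.algebraMap_eq (A := ℤ)
        (algebraMap (IntermediateField.adjoin ℚ {α ^ m}) K).injective
        (IntermediateField.AdjoinSimple.gen ℚ (α ^ m))
      rw [← h, hgi]
    have h1 := sum_embeddings' (α ^ m) (fun z => ((nthRoots m z).map Ψ).sum)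
    have e1 : ∀ τ : K →ₐ[ℚ] ℂ, ((nthRoots m (τ (α ^ m))).map Ψ).sum =
        ∑ ζ ∈ nthRootsFinset m (1:ℂ), Ψ (ζ * τ α) := by
      intro τ
      rw [map_pow, sum_nthRoots hm]
    simp only [e1] at h1
    rw [h1, nsmul_eq_mul]
    congr 1
    have hGC : (minpoly ℤ (α ^ m)).map (Int.castRingHom ℂ) =
        ∏ τ : (IntermediateField.adjoin ℚ {α ^ m}) →ₐ[ℚ] ℂ,
          (X - C (τ (IntermediateField.AdjoinSimple.gen ℚ (α ^ m)))) := by
      rw [← minpoly_map_eq (CInj_gen (α ^ m)), minpoly.isIntegrallyClosed_eq_field_fractions' ℚ hgint,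
        Polynomial.map_map, hmin]
      rfl
    have hFC : (expand ℤ m (minpoly ℤ (α ^ m))).map (Int.castRingHom ℂ) =
        ∏ τ : (IntermediateField.adjoin ℚ {α ^ m}) →ₐ[ℚ] ℂ,
          (X ^ m - C (τ (IntermediateField.AdjoinSimple.gen ℚ (α ^ m)))) := by
      rw [Polynomial.map_expand, hGC, map_prod]
      refine Finset.prod_congr rfl fun τ _ => ?_
      rw [map_sub, expand_X, expand_C]
    have hfC : (minpoly ℤ α).map (Int.castRingHom ℂ) = ∏ τ : K →ₐ[ℚ] ℂ, (X - C (τ α)) := by
      rw [← minpoly_map_eq hc, minpoly.isIntegrallyClosed_eq_field_fractions' ℚ hα, Polynomial.map_map]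
      rfl
    have hFC0 : (expand ℤ m (minpoly ℤ (α ^ m))).map (Int.castRingHom ℂ) ≠ 0 :=
      (hFm.map (Int.castRingHom ℂ)).ne_zero
    have h2 : (((expand ℤ m (minpoly ℤ (α ^ m))).map (Int.castRingHom ℂ)).roots.map Ψ).sum =
        ∑ τ : (IntermediateField.adjoin ℚ {α ^ m}) →ₐ[ℚ] ℂ,
          ((nthRoots m (τ (IntermediateField.AdjoinSimple.gen ℚ (α ^ m)))).map Ψ).sum := by
      rw [hFC] at hFC0 ⊢
      rw [roots_prod _ _ hFC0, Multiset.map_bind, Multiset.sum_bind]
      rfl
    rw [← h2, hF, Polynomial.map_mul, roots_mul, Multiset.map_add, Multiset.sum_add]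
    · congr 1
      rw [hfC, Finset.prod_eq_multiset_prod]
      have e : (Multiset.map (fun τ : K →ₐ[ℚ] ℂ => X - C (τ α)) Finset.univ.val) =
          Multiset.map (fun a : ℂ => X - C a)
            (Multiset.map (fun τ : K →ₐ[ℚ] ℂ => τ α) Finset.univ.val) := by
        rw [Multiset.map_map]; rfl
      rw [e, Polynomial.roots_multiset_prod_X_sub_C, Multiset.map_map]
      rfl
    · rw [← Polynomial.map_mul, ← hF]
      exact hFC0

end Pool.Agent.Y947.DM
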