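import Mathlib
import Pool.Agent.Y947.DM.SatA

/-!
# Self energies of powers with repeated conjugates
-/

set_option autoImplicit false

open Finset Polynomial Module Pool.Agent.H388SL Pool.Agent.Y947.DL

namespace Pool.Agent.Y947.DM

variable {K : Type*} [Field K] [NumberField K]

/-- mutual energies of powers, with two families of contraction factors -/
noncomputable def EE2 (α : K) (ε ε' : (K →ₐ[ℚ] ℂ) → ℝ) (a b : ℕ) : ℝ :=
  ∑ σ : K →ₐ[ℚ] ℂ, ∑ τ : K →ₐ[ℚ] ℂ, -Real.log ‖1 - ww α ε σ ^ a * starRingEnd ℂ (ww α ε' τ ^ b)‖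

lemma EE2_symm (α : K) (ε ε' : (K →ₐ[ℚ] ℂ) → ℝ) (p q : ℕ) : EE2 α ε ε' p q = EE2 α ε' ε q p := by
  unfold EE2
  rw [Finset.sum_comm]
  refine Finset.sum_congr rfl fun σ _ => Finset.sum_congr rfl fun τ _ => ?_
  congr 2
  rw [← RCLike.norm_conj]
  congr 1
  rw [map_sub, map_one, map_mul, Complex.conj_conj, mul_comm]

lemma ww_mul2 (α : K) (ε ε' : (K →ₐ[ℚ] ℂ) → ℝ) (σ τ : K →ₐ[ℚ] ℂ) {p q : ℕ} (hp : p ≠ 0) (hq : q ≠ 0) :
    ww α ε σ ^ p * starRingEnd ℂ (ww α ε' τ ^ q) =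
      (((1 - ε σ) ^ p * (1 - ε' τ) ^ q : ℝ) : ℂ) *
        (refl (σ (α ^ p)) * starRingEnd ℂ (refl (τ (α ^ q)))) := by
  unfold ww
  rw [map_pow σ, map_pow τ, refl_pow _ _ hp, refl_pow _ _ hq, mul_pow, mul_pow, map_mul, map_pow, map_pow,
    Complex.conj_ofReal]
  push_cast
  ring

/-- cross energies -/
lemma EE2_cross {α : K} {ε ε' : (K →ₐ[ℚ] ℂ) → ℝ} (hε : ∀ σ, 0 < ε σ ∧ ε σ ≤ 1 / 2)
    (hε' : ∀ σ, 0 < ε' σ ∧ ε' σ ≤ 1 / 2) {p q : ℕ}
    (hp : p ≠ 0) (hq : q ≠ 0) (hne : ∀ σ τ : K →ₐ[ℚ] ℂ, σ (α ^ p) ≠ τ (α ^ q)) :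
    EE2 α ε ε' p q ≤ -(∑ σ : K →ₐ[ℚ] ℂ, ∑ τ : K →ₐ[ℚ] ℂ, Real.log ‖σ (α ^ p) - τ (α ^ q)‖) +
      finrank ℚ K * ((p + q) * lam α + (p * ∑ σ, ε σ + q * ∑ σ, ε' σ)) := by
  have hcard : Fintype.card (K →ₐ[ℚ] ℂ) = finrank ℚ K := AlgHom.card ℚ K ℂ
  have h1 : ∀ σ ∈ (Finset.univ : Finset (K →ₐ[ℚ] ℂ)), ∀ τ ∈ (Finset.univ : Finset (K →ₐ[ℚ] ℂ)),
      -Real.log ‖1 - ww α ε σ ^ p * starRingEnd ℂ (ww α ε' τ ^ q)‖ ≤
      -Real.log ‖σ (α ^ p) - τ (α ^ q)‖ + p * Real.log (max 1 ‖σ α‖) + q * Real.log (max 1 ‖τ α‖)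
        + (p * ε σ + q * ε' τ) := by
    intro σ _ τ _
    rw [ww_mul2 α ε ε' σ τ hp hq]
    have hσ := hε σ
    have hτ := hε' τ
    have hs0 : 0 ≤ (1 - ε σ) ^ p * (1 - ε' τ) ^ q :=
      mul_nonneg (pow_nonneg (by linarith) _) (pow_nonneg (by linarith) _)
    have hs1 : (1 - ε σ) ^ p * (1 - ε' τ) ^ q < 1 := by
      have h2 : (1 - ε σ) ^ p < 1 := pow_lt_one₀ (by linarith) (by linarith) hp
      have h3 : (1 - ε' τ) ^ q ≤ 1 := pow_le_one₀ (by linarith) (by linarith)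
      have h4 : 0 ≤ (1 - ε σ) ^ p := pow_nonneg (by linarith) _
      nlinarith
    have h2 := pair_log (hne σ τ) hs0 hs1
    have h3 := one_sub_mul_pow_le hσ.1.le (by linarith) hτ.1.le (by linarith) p q
    rw [map_pow σ, map_pow τ, log_max_pow, log_max_pow, ← map_pow σ, ← map_pow τ] at h2
    linarith
  have h2 := Finset.sum_le_sum fun σ hσ => Finset.sum_le_sum fun τ hτ => h1 σ hσ τ hτ
  refine h2.trans (le_of_eq ?_)
  simp only [Finset.sum_add_distrib, Finset.sum_const, Finset.card_univ, hcard, nsmul_eq_mul,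
      ← Finset.mul_sum, Finset.sum_neg_distrib]
  unfold lam
  ring

open Classical in
/-- total contraction of a class -/
noncomputable def cc (α : K) (m : ℕ) (ε : (K →ₐ[ℚ] ℂ) → ℝ) (z : ℂ) : ℝ :=
  ∑ σ : K →ₐ[ℚ] ℂ, if σ (α ^ m) = z then ε σ else 0

/-- contraction factors that depend on the `m`-th power only -/
noncomputable def em (α : K) (m : ℕ) (ε : (K →ₐ[ℚ] ℂ) → ℝ) (τ : K →ₐ[ℚ] ℂ) : ℝ := cc α m ε (τ (α ^ m))

lemma cc_nonneg {α : K} {m : ℕ} {ε : (K →ₐ[ℚ] ℂ) → ℝ} (hε : ∀ σ, 0 < ε σ) (z : ℂ) :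
    0 ≤ cc α m ε z := by
  classical
  unfold cc
  apply Finset.sum_nonneg
  intro σ _
  split_ifs
  · exact (hε σ).le
  · exact le_refl _

lemma cc_le {α : K} {m : ℕ} {ε : (K →ₐ[ℚ] ℂ) → ℝ} (hε : ∀ σ, 0 < ε σ) (z : ℂ) :
    cc α m ε z ≤ ∑ σ, ε σ := by
  classical
  unfold cc
  apply Finset.sum_le_sum
  intro σ _
  split_ifs
  · exact le_refl _
  · exact (hε σ).le

lemma le_em {α : K} {m : ℕ} {ε : (K →ₐ[ℚ] ℂ) → ℝ} (hε : ∀ σ, 0 < ε σ) (τ : K →ₐ[ℚ] ℂ) :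
    ε τ ≤ em α m ε τ := by
  classical
  unfold em cc
  have h1 : (if τ (α ^ m) = τ (α ^ m) then ε τ else 0) = ε τ := if_pos rfl
  rw [← h1]
  apply Finset.single_le_sum (f := fun σ : K →ₐ[ℚ] ℂ => if σ (α ^ m) = τ (α ^ m) then ε σ else 0)
  · intro σ _
    split_ifs
    · exact (hε σ).le
    · exact le_refl _
  · exact Finset.mem_univ _

/-- the classes have at most `finrank ℚ(α ^ m) K` elements -/
lemma card_class (y : K) (z : ℂ) [DecidableEq ℂ] :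
    ((Finset.univ : Finset (K →ₐ[ℚ] ℂ)).filter (fun τ => τ y = z)).card ≤
      finrank (IntermediateField.adjoin ℚ {y}) K := by
  have h1 := sum_embeddings' y (fun u => if u = z then (1:ℕ) else 0)
  rw [Finset.card_filter, h1]
  have h2 : ∑ σ : (IntermediateField.adjoin ℚ {y}) →ₐ[ℚ] ℂ,
      (if σ (IntermediateField.AdjoinSimple.gen ℚ y) = z then (1:ℕ) else 0) ≤ 1 := by
    by_cases h : ∃ τ' : (IntermediateField.adjoin ℚ {y}) →ₐ[ℚ] ℂ,
        τ' (IntermediateField.AdjoinSimple.gen ℚ y) = z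
    · obtain ⟨τ', h3⟩ := h
      refine (Finset.sum_eq_single τ' ?_ ?_).le.trans ?_
      · intro σ _ hσ
        rw [if_neg]
        intro h
        exact hσ (CInj_gen y (by dsimp only; rw [h, h3]))
      · intro h
        exact absurd (Finset.mem_univ _) h
      · rw [if_pos h3]
    · push Not at h
      rw [Finset.sum_eq_zero]
      · exact Nat.zero_le _
      · intro σ _
        rw [if_neg (h σ)]
  rw [smul_eq_mul]
  calc _ ≤ finrank (IntermediateField.adjoin ℚ {y}) K * 1 := Nat.mul_le_mul_left _ h2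
    _ = _ := mul_one _

lemma sum_em_le {α : K} {m : ℕ} {ε : (K →ₐ[ℚ] ℂ) → ℝ} (hε : ∀ σ, 0 < ε σ) :
    ∑ τ, em α m ε τ ≤ finrank (IntermediateField.adjoin ℚ {α ^ m}) K * ∑ σ, ε σ := by
  classical
  unfold em cc
  rw [Finset.sum_comm, Finset.mul_sum]
  apply Finset.sum_le_sum
  intro σ _
  have h1 := card_class (K := K) (α ^ m) (σ (α ^ m))
  have h2 : ∑ τ : K →ₐ[ℚ] ℂ, (if σ (α ^ m) = τ (α ^ m) then ε σ else 0) =
      ((Finset.univ : Finset (K →ₐ[ℚ] ℂ)).filter (fun τ => τ (α ^ m) = σ (α ^ m))).card * ε σ := by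
    rw [← Finset.sum_filter, Finset.sum_const, nsmul_eq_mul]
    congr 3
    apply Finset.filter_congr
    intro τ _
    exact eq_comm
  rw [h2]
  apply mul_le_mul_of_nonneg_right _ (hε σ).le
  exact_mod_cast h1

/-- self energies of powers -/
theorem sat_bound {α : K} (hα : IsIntegral ℤ α) (h0 : α ≠ 0) (hc : CInj α) {m : ℕ} (hm : 0 < m)
    {ε : (K →ₐ[ℚ] ℂ) → ℝ} (hε : ∀ σ, 0 < ε σ) (hS : ∑ σ, ε σ ≤ 1 / 2) {k : ℕ}
    (hk : finrank (IntermediateField.adjoin ℚ {α ^ m}) K = k) :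
    EE2 α (em α m ε) (em α m ε) m m ≤ k * EE α ε 1 1 +
      finrank ℚ K * (2 * m * lam α + (2 * k ^ 2 + 2 * k * m) * ∑ σ, ε σ) := by
  classical
  obtain ⟨h, hhm, hh0, hsum⟩ := exists_cofactor hα h0 hc hm
  rw [hk] at hsum
  have hcard : Fintype.card (K →ₐ[ℚ] ℂ) = finrank ℚ K := AlgHom.card ℚ K ℂ
  set n := finrank ℚ K with hn
  set S := ∑ σ, ε σ with hSdef
  set e : ℂ → ℝ := cc α m ε with he
  have he0 : ∀ z, 0 ≤ e z := cc_nonneg hε
  have heS : ∀ z, e z ≤ S := cc_le hε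
  have hem : ∀ σ, em α m ε σ = e (σ (α ^ m)) := fun σ => rfl
  have hemε : ∀ σ, ε σ ≤ e (σ (α ^ m)) := fun σ => le_em hε σ
  have hsumem : ∑ τ : K →ₐ[ℚ] ℂ, e (τ (α ^ m)) ≤ k * S := by
    have := sum_em_le (α := α) (m := m) hε
    rw [hk] at this
    exact this
  set R := (h.map (Int.castRingHom ℂ)).roots with hR
  set Ψ : (K →ₐ[ℚ] ℂ) → ℂ → ℝ := fun σ x =>
    -Real.log ‖1 - (((1 - e (σ (α ^ m))) * (1 - e (x ^ m)) : ℝ) : ℂ) *
      (H388SL.refl (σ α) * starRingEnd ℂ (H388SL.refl x))‖ with hΨ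
  -- step 1
  have step1 : ∀ σ τ : K →ₐ[ℚ] ℂ,
      -Real.log ‖1 - ww α (em α m ε) σ ^ m * starRingEnd ℂ (ww α (em α m ε) τ ^ m)‖ =
        ∑ ζ ∈ nthRootsFinset m (1:ℂ), Ψ σ (ζ * τ α) := by
    intro σ τ
    obtain ⟨W, hW⟩ : ∃ W, W = ww α (em α m ε) σ * starRingEnd ℂ (ww α (em α m ε) τ) := ⟨_, rfl⟩
    have e1 : ww α (em α m ε) σ ^ m * starRingEnd ℂ (ww α (em α m ε) τ ^ m) = W ^ m := by
      rw [map_pow, ← mul_pow, hW]
    have hww : ∀ ρ : K →ₐ[ℚ] ℂ, ‖ww α (em α m ε) ρ‖ < 1 := by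
      intro ρ
      apply ww_norm
      intro σ
      rw [hem]
      exact ⟨(hε σ).trans_le (hemε σ), (heS _).trans hS⟩
    have hW1 : ‖W‖ < 1 := by
      rw [hW]; exact norm_mul_conj_lt (hww σ) (hww τ).le
    have e2 : ‖1 - W ^ m‖ = ‖1 - (starRingEnd ℂ W) ^ m‖ := by
      rw [← RCLike.norm_conj, map_sub, map_one, map_pow]
    rw [e1, e2, ← prod_grid hm, norm_prod, Real.log_prod, ← Finset.sum_neg_distrib]
    · refine Finset.sum_congr rfl fun ζ hζ => ?_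
      have hζ1 : ‖ζ‖ = 1 := norm_of_mem_grid hm hζ
      have hζm : ζ ^ m = 1 := (mem_nthRootsFinset hm (1:ℂ)).mp hζ
      have e3 : ‖1 - ζ * starRingEnd ℂ W‖ = ‖1 - starRingEnd ℂ ζ * W‖ := by
        rw [← RCLike.norm_conj, map_sub, map_one, map_mul, Complex.conj_conj]
      have e4 : starRingEnd ℂ ζ * W = (((1 - e (σ (α ^ m))) * (1 - e (τ (α ^ m))) : ℝ) : ℂ) *
          (H388SL.refl (σ α) * starRingEnd ℂ (ζ * H388SL.refl (τ α))) := by
        rw [hW]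
        unfold ww
        rw [map_mul, map_mul, Complex.conj_ofReal, hem, hem]
        push_cast
        ring
      rw [e3, e4, hΨ]
      dsimp only
      rw [mul_pow, hζm, one_mul, ← map_pow τ, refl_mul_unit hζ1]
    · intro ζ hζ
      have hζ1 : ‖ζ‖ = 1 := norm_of_mem_grid hm hζ
      have : ‖ζ * starRingEnd ℂ W‖ < 1 := by
        rw [norm_mul, hζ1, one_mul, RCLike.norm_conj]; exact hW1
      exact norm_ne_zero_iff.mpr (one_sub_ne this)
  -- step 2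
  have step2 : EE2 α (em α m ε) (em α m ε) m m =
      k * ∑ σ : K →ₐ[ℚ] ℂ, (∑ τ : K →ₐ[ℚ] ℂ, Ψ σ (τ α) + (R.map (Ψ σ)).sum) := by
    unfold EE2
    rw [Finset.mul_sum]
    refine Finset.sum_congr rfl fun σ _ => ?_
    rw [← hsum (Ψ σ)]
    exact Finset.sum_congr rfl fun τ _ => step1 σ τ
  -- step 3
  have step3 : ∀ σ τ : K →ₐ[ℚ] ℂ, Ψ σ (τ α) ≤
      -Real.log ‖1 - ww α ε σ ^ 1 * starRingEnd ℂ (ww α ε τ ^ 1)‖ +
        (e (σ (α ^ m)) + e (τ (α ^ m))) := by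
    intro σ τ
    have h1 := hε σ
    have h2 := hε τ
    have h3 := hemε σ
    have h4 := hemε τ
    have h5 := (heS (σ (α ^ m))).trans hS
    have h6 := (heS (τ (α ^ m))).trans hS
    have hw : ‖H388SL.refl (σ α) * starRingEnd ℂ (H388SL.refl (τ α))‖ ≤ 1 := by
      rw [norm_mul, RCLike.norm_conj]
      exact mul_le_one₀ (norm_refl_le _) (norm_nonneg _) (norm_refl_le _)
    have h7 := log_mono (s := (1 - e (σ (α ^ m))) * (1 - e (τ (α ^ m)))) (s' := (1 - ε σ) * (1 - ε τ))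
      (mul_nonneg (by linarith) (by linarith))
      (mul_le_mul (by linarith) (by linarith) (by linarith) (by linarith)) (by nlinarith) hw
    have h8 : (1 - ε σ) * (1 - ε τ) - (1 - e (σ (α ^ m))) * (1 - e (τ (α ^ m))) ≤
        e (σ (α ^ m)) + e (τ (α ^ m)) := by nlinarith
    rw [ww_mul α ε σ τ one_ne_zero one_ne_zero, pow_one, pow_one, pow_one, hΨ]
    dsimp only
    rw [← map_pow τ]
    linarith
  -- step 4
  have hRne : ∀ σ : K →ₐ[ℚ] ℂ, ∀ x ∈ R, σ α ≠ x := by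
    intro σ x hx hσx
    rw [hR, mem_roots (hhm.map (Int.castRingHom ℂ)).ne_zero, IsRoot.def, eval_map] at hx
    apply hh0
    have h1 := map_aevalZ σ h α
    rw [hσx] at h1
    have h2 : aeval x h = 0 := by
      rw [Polynomial.aeval_def]
      exact hx
    rw [h2] at h1
    exact (map_eq_zero σ).mp h1
  have step4 : ∀ σ : K →ₐ[ℚ] ℂ, ∀ x ∈ R, Ψ σ x ≤
      -Real.log ‖σ α - x‖ + (Real.log (max 1 ‖σ α‖) + e (σ (α ^ m))) +
        (Real.log (max 1 ‖x‖) + e (x ^ m)) := by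
    intro σ x hx
    have h1 := hε σ
    have h3 := hemε σ
    have h5 := (heS (σ (α ^ m))).trans hS
    have h6 := (heS (x ^ m)).trans hS
    have h7 := he0 (x ^ m)
    have hs0 : 0 ≤ (1 - e (σ (α ^ m))) * (1 - e (x ^ m)) := mul_nonneg (by linarith) (by linarith)
    have hs1 : (1 - e (σ (α ^ m))) * (1 - e (x ^ m)) < 1 := by nlinarith
    have h8 := pair_log (hRne σ x hx) hs0 hs1
    rw [hΨ]
    dsimp only
    nlinarith
  -- step 5
  have hsplit : ∀ σ : K →ₐ[ℚ] ℂ, (R.map (fun x => Real.log ‖σ α - x‖)).sum =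
      Real.log ‖σ (aeval α h)‖ := by
    intro σ
    rw [← log_prod_multiset R (fun x => σ α - x) (fun x hx => sub_ne_zero.mpr (hRne σ x hx)),
      map_aevalZ]
    congr 2
    have hs : (h.map (Int.castRingHom ℂ)).Splits := IsAlgClosed.splits _
    have h1 := hs.eq_prod_roots_of_monic (hhm.map _)
    have h2 : aeval (σ α) h = (h.map (Int.castRingHom ℂ)).eval (σ α) := by
      rw [Polynomial.eval_map, Polynomial.aeval_def]; rfl
    rw [h2]
    conv_rhs => rw [h1, Polynomial.eval_multiset_prod, Multiset.map_map]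
    rw [← hR]
    congr 1
    refine Multiset.map_congr rfl fun x _ => ?_
    simp
  have step5 : 0 ≤ ∑ σ : K →ₐ[ℚ] ℂ, (R.map (fun x => Real.log ‖σ α - x‖)).sum := by
    simp_rw [hsplit]
    have h1 := Real.log_nonneg (one_le_prod_norm (isIntegral_aevalZ hα h) hh0)
    rwa [Real.log_prod (fun σ _ => norm_ne_zero_iff.mpr ((map_ne_zero σ).mpr hh0))] at h1
  -- step 6
  have s6a : (k : ℝ) * Multiset.card R ≤ n * m := by
    have h1 := hsum (fun _ => 1)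
    simp only [Finset.sum_const, nsmul_eq_mul, Finset.card_univ, hcard, card_grid hm, mul_one,
      Multiset.map_const', Multiset.sum_replicate] at h1
    have h2 : (0:ℝ) ≤ k * n := by positivity
    rw [h1, mul_add]
    linarith
  have s6b : (k : ℝ) * (R.map (fun x => Real.log (max 1 ‖x‖))).sum ≤ m * lam α := by
    have h1 := hsum (fun x => Real.log (max 1 ‖x‖))
    have h2 : ∀ τ : K →ₐ[ℚ] ℂ, ∑ ζ ∈ nthRootsFinset m (1:ℂ), Real.log (max 1 ‖ζ * τ α‖) =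
        m * Real.log (max 1 ‖τ α‖) := by
      intro τ
      rw [Finset.sum_congr rfl (g := fun _ => Real.log (max 1 ‖τ α‖)), Finset.sum_const, card_grid hm,
        nsmul_eq_mul]
      intro ζ hζ
      rw [norm_mul, norm_of_mem_grid hm hζ, one_mul]
    simp only [h2] at h1
    rw [← Finset.mul_sum] at h1
    have h3 : lam α = ∑ τ : K →ₐ[ℚ] ℂ, Real.log (max 1 ‖τ α‖) := rfl
    rw [h3, h1, mul_add]
    have h4 : (0:ℝ) ≤ k * ∑ τ : K →ₐ[ℚ] ℂ, Real.log (max 1 ‖τ α‖) :=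
      mul_nonneg (Nat.cast_nonneg _) (lam_nonneg α)
    linarith
  have s6c : (k : ℝ) * (R.map (fun x => e (x ^ m))).sum ≤ m * (k * S) := by
    have h1 := hsum (fun x => e (x ^ m))
    have h2 : ∀ τ : K →ₐ[ℚ] ℂ, ∑ ζ ∈ nthRootsFinset m (1:ℂ), e ((ζ * τ α) ^ m) = m * e (τ (α ^ m)) := by
      intro τ
      rw [Finset.sum_congr rfl (g := fun _ => e (τ (α ^ m))), Finset.sum_const, card_grid hm,
        nsmul_eq_mul]
      intro ζ hζ
      rw [mul_pow, (mem_nthRootsFinset hm (1:ℂ)).mp hζ, one_mul, map_pow]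
    simp only [h2] at h1
    rw [← Finset.mul_sum, mul_add] at h1
    have h4 : (0:ℝ) ≤ k * ∑ τ : K →ₐ[ℚ] ℂ, e ((τ α) ^ m) :=
      mul_nonneg (Nat.cast_nonneg _) (Finset.sum_nonneg fun _ _ => he0 _)
    have h5 : (m:ℝ) * ∑ τ : K →ₐ[ℚ] ℂ, e (τ (α ^ m)) ≤ m * (k * S) :=
      mul_le_mul_of_nonneg_left hsumem (Nat.cast_nonneg _)
    linarith
  -- conclusion
  have t1 : ∑ σ : K →ₐ[ℚ] ℂ, ∑ τ : K →ₐ[ℚ] ℂ, Ψ σ (τ α) ≤ EE α ε 1 1 + n * (2 * (k * S)) := by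
    have h1 := Finset.sum_le_sum fun σ (_ : σ ∈ (Finset.univ : Finset (K →ₐ[ℚ] ℂ))) =>
      Finset.sum_le_sum fun τ (_ : τ ∈ (Finset.univ : Finset (K →ₐ[ℚ] ℂ))) => step3 σ τ
    have h2 : ∑ σ : K →ₐ[ℚ] ℂ, ∑ τ : K →ₐ[ℚ] ℂ,
        (-Real.log ‖1 - ww α ε σ ^ 1 * starRingEnd ℂ (ww α ε τ ^ 1)‖ +
          (e (σ (α ^ m)) + e (τ (α ^ m)))) =
        EE α ε 1 1 + n * (2 * ∑ τ : K →ₐ[ℚ] ℂ, e (τ (α ^ m))) := by
      unfold EE
      simp only [Finset.sum_add_distrib, Finset.sum_const, Finset.card_univ, hcard, nsmul_eq_mul,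
        ← Finset.mul_sum]
      ring
    rw [h2] at h1
    have h3 : (n:ℝ) * (2 * ∑ τ : K →ₐ[ℚ] ℂ, e (τ (α ^ m))) ≤ n * (2 * (k * S)) := by
      apply mul_le_mul_of_nonneg_left _ (Nat.cast_nonneg _)
      linarith
    linarith
  have t2 : ∑ σ : K →ₐ[ℚ] ℂ, (R.map (Ψ σ)).sum ≤
      Multiset.card R * (lam α + k * S) +
        n * ((R.map (fun x => Real.log (max 1 ‖x‖))).sum + (R.map (fun x => e (x ^ m))).sum) := by
    have h1 : ∀ σ : K →ₐ[ℚ] ℂ, (R.map (Ψ σ)).sum ≤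
        -(R.map (fun x => Real.log ‖σ α - x‖)).sum +
          Multiset.card R * (Real.log (max 1 ‖σ α‖) + e (σ (α ^ m))) +
          ((R.map (fun x => Real.log (max 1 ‖x‖))).sum + (R.map (fun x => e (x ^ m))).sum) := by
      intro σ
      have h2 := Multiset.sum_map_le_sum_map (s := R) (Ψ σ) (fun x => -Real.log ‖σ α - x‖ +
        (Real.log (max 1 ‖σ α‖) + e (σ (α ^ m))) + (Real.log (max 1 ‖x‖) + e (x ^ m))) (step4 σ)
      refine h2.trans (le_of_eq ?_)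
      rw [Multiset.sum_map_add, Multiset.sum_map_add, Multiset.sum_map_neg, Multiset.map_const',
        Multiset.sum_replicate, nsmul_eq_mul, Multiset.sum_map_add]
    have h2 := Finset.sum_le_sum fun σ (_ : σ ∈ (Finset.univ : Finset (K →ₐ[ℚ] ℂ))) => h1 σ
    refine h2.trans ?_
    rw [Finset.sum_add_distrib, Finset.sum_add_distrib, Finset.sum_neg_distrib, ← Finset.mul_sum,
      Finset.sum_add_distrib, Finset.sum_const, Finset.card_univ, hcard, nsmul_eq_mul]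
    have h3 : (Multiset.card R : ℝ) * (∑ σ : K →ₐ[ℚ] ℂ, Real.log (max 1 ‖σ α‖) +
        ∑ σ : K →ₐ[ℚ] ℂ, e (σ (α ^ m))) ≤ Multiset.card R * (lam α + k * S) := by
      apply mul_le_mul_of_nonneg_left _ (Nat.cast_nonneg _)
      have : lam α = ∑ σ : K →ₐ[ℚ] ℂ, Real.log (max 1 ‖σ α‖) := rfl
      linarith
    linarith
  rw [step2, Finset.sum_add_distrib]
  have hk0 : (0:ℝ) ≤ k := Nat.cast_nonneg _
  have hS0 : 0 ≤ S := Finset.sum_nonneg fun σ _ => (hε σ).le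
  have t3 := mul_le_mul_of_nonneg_left (add_le_add t1 t2) hk0
  have t4 : (k:ℝ) * Multiset.card R * (lam α + k * S) ≤ n * m * (lam α + k * S) :=
    mul_le_mul_of_nonneg_right s6a (add_nonneg (lam_nonneg α) (by positivity))
  have t5 : (n:ℝ) * (k * ((R.map (fun x => Real.log (max 1 ‖x‖))).sum + (R.map (fun x => e (x ^ m))).sum)) ≤
      n * (m * lam α + m * (k * S)) := by
    apply mul_le_mul_of_nonneg_left _ (Nat.cast_nonneg _)
    rw [mul_add]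
    linarith
  refine t3.trans ?_
  nlinarith

end Pool.Agent.Y947.DM
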