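import Mathlib
import Pool.Agent.Y947.DM.SatB

/-!
# The main inequality for all primes
-/

set_option autoImplicit false

open Finset Polynomial Module Pool.Agent.H388SL Pool.Agent.Y947.DL

namespace Pool.Agent.Y947.DM

variable {K : Type*} [Field K] [NumberField K]

/-- admissible primes -/
def Good (α : K) (p : ℕ) : Prop := CInj (α ^ p) ∨
  (p ≠ 2 ∧ (∃ ζ : K, IsPrimitiveRoot ζ p) ∧
    finrank (IntermediateField.adjoin ℚ {α ^ (p ^ 2)}) K ≤ p)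

open Classical in
/-- contraction factors used for the `p`-th power -/
noncomputable def eps (α : K) (ε : (K →ₐ[ℚ] ℂ) → ℝ) (p : ℕ) : (K →ₐ[ℚ] ℂ) → ℝ :=
  if CInj (α ^ p) then ε else em α (p ^ 2) ε

open Classical in
/-- order of the rotations used for the `p`-th power -/
noncomputable def rr (α : K) (p : ℕ) : ℕ := if CInj (α ^ p) then 1 else p

lemma rr_pos {α : K} {p : ℕ} (hp : 0 < p) : 0 < rr α p := by
  unfold rr
  split_ifs
  · exact one_pos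
  · exact hp

/-- averaged energies -/
noncomputable def EN (α : K) (ε : (K →ₐ[ℚ] ℂ) → ℝ) (p q : ℕ) : ℝ :=
  EE2 α (eps α ε p) (eps α ε q) (p * Nat.lcm (rr α p) (rr α q)) (q * Nat.lcm (rr α p) (rr α q)) /
    Nat.lcm (rr α p) (rr α q)

lemma EN_symm (α : K) (ε : (K →ₐ[ℚ] ℂ) → ℝ) (p q : ℕ) : EN α ε p q = EN α ε q p := by
  unfold EN
  rw [EE2_symm, Nat.lcm_comm]

/-- the averaged energies form a positive semidefinite matrix -/
lemma EN_psd {α : K} {ε : (K →ₐ[ℚ] ℂ) → ℝ} (Q : Finset ℕ) (hQ : ∀ p ∈ Q, 0 < p)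
    (hε : ∀ p ∈ Q, ∀ σ, 0 < eps α ε p σ ∧ eps α ε p σ ≤ 1 / 2) (x : ℕ → ℝ) :
    0 ≤ ∑ p ∈ Q, ∑ q ∈ Q, x p * x q * EN α ε p q := by
  classical
  have hpsd := psd_lcm (Q ×ˢ (Finset.univ : Finset (K →ₐ[ℚ] ℂ))) (fun i => x i.1)
    (fun i => ww α (eps α ε i.1) i.2 ^ i.1) (fun i => rr α i.1) (by
      intro i hi
      rw [Finset.mem_product] at hi
      exact rr_pos (hQ _ hi.1)) (by
      intro i hi
      rw [Finset.mem_product] at hi
      rw [norm_pow]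
      exact pow_lt_one₀ (norm_nonneg _) (ww_norm (hε _ hi.1) _) (hQ _ hi.1).ne')
  refine hpsd.trans (le_of_eq ?_)
  rw [Finset.sum_product]
  refine Finset.sum_congr rfl fun p _ => ?_
  have e2 : ∀ q : ℕ, x p * x q * EN α ε p q =
      ∑ σ : K →ₐ[ℚ] ℂ, ∑ τ : K →ₐ[ℚ] ℂ, x p * x q *
        (-Real.log ‖1 - (ww α (eps α ε p) σ ^ p * starRingEnd ℂ (ww α (eps α ε q) τ ^ q)) ^
          Nat.lcm (rr α p) (rr α q)‖ / Nat.lcm (rr α p) (rr α q)) := by
    intro q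
    unfold EN EE2
    rw [Finset.sum_div, Finset.mul_sum]
    refine Finset.sum_congr rfl fun σ _ => ?_
    rw [Finset.sum_div, Finset.mul_sum]
    refine Finset.sum_congr rfl fun τ _ => ?_
    rw [mul_pow, ← map_pow, ← pow_mul, ← pow_mul]
  simp only [e2]
  conv_rhs => rw [Finset.sum_comm]
  refine Finset.sum_congr rfl fun σ _ => ?_
  rw [Finset.sum_product]

section

variable {α : K} (hα : IsIntegral ℤ α) (h0 : α ≠ 0) (hroot : ∀ n : ℕ, 0 < n → α ^ n ≠ 1)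
  (hc : CInj α) {ε : (K →ₐ[ℚ] ℂ) → ℝ} (hε : ∀ σ, 0 < ε σ) {Y : ℕ} (hY1 : 1 ≤ Y)
  (hYS : Y * ∑ σ, ε σ ≤ 1 / 2)

include hε hY1 hYS

lemma S_le : ∑ σ, ε σ ≤ Y * ∑ σ, ε σ ∧ ∑ σ, ε σ ≤ 1 / 2 := by
  have hS0 : 0 ≤ ∑ σ, ε σ := Finset.sum_nonneg fun σ _ => (hε σ).le
  have hY : (1:ℝ) ≤ Y := by exact_mod_cast hY1
  have h1 : ∑ σ, ε σ ≤ Y * ∑ σ, ε σ := le_mul_of_one_le_left hS0 hY
  exact ⟨h1, h1.trans hYS⟩

lemma eps_bd (p : ℕ) (σ : K →ₐ[ℚ] ℂ) : 0 < eps α ε p σ ∧ eps α ε p σ ≤ 1 / 2 := by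
  obtain ⟨h1, h2⟩ := S_le hε hY1 hYS
  unfold eps
  split_ifs
  · refine ⟨hε σ, ?_⟩
    exact (Finset.single_le_sum (fun τ _ => (hε τ).le) (Finset.mem_univ σ)).trans h2
  · exact ⟨(hε σ).trans_le (le_em hε σ), (cc_le hε _).trans h2⟩

lemma eps_sum {p : ℕ} (hg : Good α p) (hpY : p ≤ Y) : ∑ σ, eps α ε p σ ≤ Y * ∑ σ, ε σ := by
  obtain ⟨h1, h2⟩ := S_le hε hY1 hYS
  unfold eps
  split_ifs with h
  · exact h1
  · rcases hg with hg | ⟨_, _, hk⟩
    · exact absurd hg h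
    · refine (sum_em_le hε).trans ?_
      apply mul_le_mul_of_nonneg_right _ (Finset.sum_nonneg fun σ _ => (hε σ).le)
      exact_mod_cast hk.trans hpY

include hα h0 hroot in
/-- cross terms without gain -/
lemma EN_cross {p q : ℕ} (hp : 0 < p) (hq : 0 < q) (hpq : p ≠ q) :
    EN α ε p q ≤ -(∑ σ : K →ₐ[ℚ] ℂ, ∑ τ : K →ₐ[ℚ] ℂ,
        Real.log ‖σ (α ^ (p * Nat.lcm (rr α p) (rr α q))) - τ (α ^ (q * Nat.lcm (rr α p) (rr α q)))‖) /
          Nat.lcm (rr α p) (rr α q) +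
      finrank ℚ K * ((p + q) * lam α + (p * ∑ σ, eps α ε p σ + q * ∑ σ, eps α ε q σ)) := by
  have hL : 0 < Nat.lcm (rr α p) (rr α q) := Nat.lcm_pos (rr_pos hp) (rr_pos hq)
  obtain ⟨L, hLdef⟩ : ∃ L, L = Nat.lcm (rr α p) (rr α q) := ⟨_, rfl⟩
  unfold EN
  rw [← hLdef] at hL ⊢
  have hL0 : (0:ℝ) < L := by exact_mod_cast hL
  have hne : p * L ≠ q * L := fun h => hpq (Nat.eq_of_mul_eq_mul_right hL h)
  have h1 := EE2_cross (α := α) (eps_bd (α := α) hε hY1 hYS p) (eps_bd (α := α) hε hY1 hYS q)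
    (Nat.mul_pos hp hL).ne' (Nat.mul_pos hq hL).ne' (conj_ne' hα h0 hroot hne)
  rw [div_le_iff₀ hL0]
  refine h1.trans (le_of_eq ?_)
  push_cast
  field_simp

include hα h0 hroot hc in
lemma EN_one {p : ℕ} (hp : p.Prime) (hg : Good α p) (hpY : p ≤ Y) :
    EN α ε 1 p ≤ -(finrank ℚ K * Real.log p) +
      finrank ℚ K * ((p + 1) * (lam α + 2 * (Y * ∑ σ, ε σ))) := by
  have h1 := EN_cross hα h0 hroot hε hY1 hYS one_pos hp.pos hp.ne_one.symm
  have hc1 : CInj (α ^ 1) := by rw [pow_one]; exact hc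
  have hr1 : rr α 1 = 1 := by unfold rr; rw [if_pos hc1]
  have he1 : eps α ε 1 = ε := by unfold eps; rw [if_pos hc1]
  obtain ⟨hS1, hS2⟩ := S_le hε hY1 hYS
  have hsum := eps_sum hε hY1 hYS hg hpY
  have hp0 : (0:ℝ) < p := by exact_mod_cast hp.pos
  have hn0 : (0:ℝ) ≤ finrank ℚ K := Nat.cast_nonneg _
  rw [hr1, Nat.lcm_one_left, he1] at h1
  have hgain : -(∑ σ : K →ₐ[ℚ] ℂ, ∑ τ : K →ₐ[ℚ] ℂ,
      Real.log ‖σ (α ^ (1 * rr α p)) - τ (α ^ (p * rr α p))‖) / (rr α p : ℝ) ≤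
      -(finrank ℚ K * Real.log p) := by
    by_cases hcp : CInj (α ^ p)
    · have hr : rr α p = 1 := by unfold rr; rw [if_pos hcp]
      rw [hr, one_mul, mul_one, pow_one, Nat.cast_one, div_one, neg_le_neg_iff]
      have hne' := conj_ne' hα h0 hroot hp.ne_one
      have hne : ∀ σ τ : K →ₐ[ℚ] ℂ, σ (α ^ p) ≠ τ α := by
        intro σ τ
        have := hne' σ τ
        rwa [pow_one] at this
      have h2 := pow_le_frob hα hc p hp hne
      have h3 := Real.log_le_log (by positivity) h2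
      rw [Real.log_pow, Real.log_prod] at h3
      · have e : ∑ σ : K →ₐ[ℚ] ℂ, ∑ τ : K →ₐ[ℚ] ℂ, Real.log ‖σ α - τ (α ^ p)‖ =
            ∑ σ : K →ₐ[ℚ] ℂ, Real.log (∏ τ : K →ₐ[ℚ] ℂ, ‖σ (α ^ p) - τ α‖) := by
          rw [Finset.sum_comm]
          refine Finset.sum_congr rfl fun σ _ => ?_
          rw [Real.log_prod fun τ _ => norm_ne_zero_iff.mpr (sub_ne_zero.mpr (hne σ τ))]
          refine Finset.sum_congr rfl fun τ _ => ?_
          rw [norm_sub_rev]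
        rw [e]
        exact h3
      · intro σ _
        exact Finset.prod_ne_zero_iff.mpr fun τ _ =>
          norm_ne_zero_iff.mpr (sub_ne_zero.mpr (hne σ τ))
    · have hr : rr α p = p := by unfold rr; rw [if_neg hcp]
      rcases hg with hg | ⟨hp2, ⟨ζ, hζ⟩, hk⟩
      · exact absurd hg hcp
      rw [hr, one_mul, ← pow_two, neg_div, neg_le_neg_iff, le_div_iff₀ hp0]
      have h2 := ram_gain hα h0 hroot hc hp hp2 hζ
      refine le_trans (le_of_eq ?_) h2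
      ring
  refine h1.trans (add_le_add hgain ?_)
  apply mul_le_mul_of_nonneg_left _ hn0
  push_cast
  have hS0 : 0 ≤ ∑ σ, ε σ := Finset.sum_nonneg fun σ _ => (hε σ).le
  have h3 : (p:ℝ) * ∑ σ, eps α ε p σ ≤ p * (Y * ∑ σ, ε σ) := mul_le_mul_of_nonneg_left hsum hp0.le
  nlinarith

include hα h0 hroot in
lemma EN_ne {p q : ℕ} (hp : p.Prime) (hq : q.Prime) (hpq : p ≠ q) (hgp : Good α p) (hgq : Good α q)
    (hpY : p ≤ Y) (hqY : q ≤ Y) :
    EN α ε p q ≤ finrank ℚ K * ((p + q) * (lam α + 2 * (Y * ∑ σ, ε σ))) := by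
  have h1 := EN_cross hα h0 hroot hε hY1 hYS hp.pos hq.pos hpq
  have hL : 0 < Nat.lcm (rr α p) (rr α q) := Nat.lcm_pos (rr_pos hp.pos) (rr_pos hq.pos)
  have hne : p * Nat.lcm (rr α p) (rr α q) ≠ q * Nat.lcm (rr α p) (rr α q) :=
    fun h => hpq (Nat.eq_of_mul_eq_mul_right hL h)
  have h2 := sum_log_nonneg (hα.pow (p * Nat.lcm (rr α p) (rr α q)))
    (hα.pow (q * Nat.lcm (rr α p) (rr α q))) (conj_ne' hα h0 hroot hne)
  have h3 := eps_sum hε hY1 hYS hgp hpY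
  have h4 := eps_sum hε hY1 hYS hgq hqY
  have hn0 : (0:ℝ) ≤ finrank ℚ K := Nat.cast_nonneg _
  have hp0 : (0:ℝ) < p := by exact_mod_cast hp.pos
  have hq0 : (0:ℝ) < q := by exact_mod_cast hq.pos
  have hS0 : 0 ≤ ∑ σ, ε σ := Finset.sum_nonneg fun σ _ => (hε σ).le
  have h5 : -(∑ σ : K →ₐ[ℚ] ℂ, ∑ τ : K →ₐ[ℚ] ℂ,
        Real.log ‖σ (α ^ (p * Nat.lcm (rr α p) (rr α q))) - τ (α ^ (q * Nat.lcm (rr α p) (rr α q)))‖) /
          (Nat.lcm (rr α p) (rr α q) : ℝ) ≤ 0 := by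
    rw [neg_div, neg_nonpos]
    exact div_nonneg h2 (Nat.cast_nonneg _)
  have h6 : (p + q) * lam α + (p * ∑ σ, eps α ε p σ + q * ∑ σ, eps α ε q σ) ≤
      ((p:ℝ) + q) * (lam α + 2 * (Y * ∑ σ, ε σ)) := by
    have h7 := mul_le_mul_of_nonneg_left h3 hp0.le
    have h8 := mul_le_mul_of_nonneg_left h4 hq0.le
    have h9 : 0 ≤ (p:ℝ) * (Y * ∑ σ, ε σ) := by positivity
    have h10 : 0 ≤ (q:ℝ) * (Y * ∑ σ, ε σ) := by positivity
    nlinarith
  have h7 := mul_le_mul_of_nonneg_left h6 hn0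
  linarith

include hα h0 hc in
lemma EN_self {p : ℕ} (hp : p.Prime) (hg : Good α p) (hpY : p ≤ Y) {R : ℝ} (hR0 : 0 ≤ R)
    (hR : EE α ε 1 1 ≤ finrank ℚ K * R) :
    EN α ε p p ≤ finrank ℚ K * R + finrank ℚ K * (2 * p * (lam α + 2 * (Y * ∑ σ, ε σ))) := by
  obtain ⟨hS1, hS2⟩ := S_le hε hY1 hYS
  have hS0 : 0 ≤ ∑ σ, ε σ := Finset.sum_nonneg fun σ _ => (hε σ).le
  have hp0 : (0:ℝ) < p := by exact_mod_cast hp.pos
  have hp1 : (1:ℝ) ≤ p := by exact_mod_cast hp.one_lt.le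
  have hpY' : (p:ℝ) ≤ Y := by exact_mod_cast hpY
  have hn0 : (0:ℝ) ≤ finrank ℚ K := Nat.cast_nonneg _
  unfold EN
  rw [Nat.lcm_self]
  by_cases hcp : CInj (α ^ p)
  · have hr : rr α p = 1 := by unfold rr; rw [if_pos hcp]
    have he : eps α ε p = ε := by unfold eps; rw [if_pos hcp]
    rw [hr, he, mul_one, Nat.cast_one, div_one]
    have hε' : ∀ σ, 0 < ε σ ∧ ε σ ≤ 1 / 2 := fun σ =>
      ⟨hε σ, (Finset.single_le_sum (fun τ _ => (hε τ).le) (Finset.mem_univ σ)).trans hS2⟩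
    have h1 := EE_self hα h0 hc hε' hp.pos hcp
    have h2 : EE2 α ε ε p p = EE α ε p p := rfl
    rw [h2]
    refine h1.trans (add_le_add hR ?_)
    apply mul_le_mul_of_nonneg_left _ hn0
    apply mul_le_mul_of_nonneg_left _ (by positivity)
    nlinarith
  · have hr : rr α p = p := by unfold rr; rw [if_neg hcp]
    have he : eps α ε p = em α (p ^ 2) ε := by unfold eps; rw [if_neg hcp]
    rcases hg with hg | ⟨hp2, _, hk⟩
    · exact absurd hg hcp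
    rw [hr, he, ← pow_two, div_le_iff₀ hp0]
    set k := finrank (IntermediateField.adjoin ℚ {α ^ (p ^ 2)}) K with hkdef
    have h1 := sat_bound hα h0 hc (m := p ^ 2) (pow_pos hp.pos 2) hε hS2 (k := k) hkdef.symm
    have hk' : (k:ℝ) ≤ p := by exact_mod_cast hk
    have hk0 : (0:ℝ) ≤ k := Nat.cast_nonneg _
    have h2 : (k:ℝ) * EE α ε 1 1 ≤ finrank ℚ K * R * p := by
      calc (k:ℝ) * EE α ε 1 1 ≤ k * (finrank ℚ K * R) := mul_le_mul_of_nonneg_left hR hk0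
        _ ≤ p * (finrank ℚ K * R) := mul_le_mul_of_nonneg_right hk' (by positivity)
        _ = _ := by ring
    have h3 : (2 * (k:ℝ) ^ 2 + 2 * k * ((p ^ 2 : ℕ) : ℝ)) * ∑ σ, ε σ ≤ 4 * p ^ 2 * (Y * ∑ σ, ε σ) := by
      push_cast
      have h4 : (2 * (k:ℝ) ^ 2 + 2 * k * (p:ℝ) ^ 2) ≤ 4 * p ^ 2 * Y := by
        have h5 : (k:ℝ) ^ 2 ≤ p ^ 2 := pow_le_pow_left₀ hk0 hk' 2
        have h6 : (k:ℝ) * p ^ 2 ≤ Y * p ^ 2 := mul_le_mul_of_nonneg_right (hk'.trans hpY') (by positivity)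
        have h7 : (p:ℝ) ^ 2 ≤ Y * p ^ 2 := le_mul_of_one_le_left (by positivity) (hp1.trans hpY')
        nlinarith
      calc _ ≤ (4 * (p:ℝ) ^ 2 * Y) * ∑ σ, ε σ := mul_le_mul_of_nonneg_right h4 hS0
        _ = _ := by ring
    refine h1.trans ?_
    have h8 : (finrank ℚ K : ℝ) * (2 * ((p ^ 2 : ℕ) : ℝ) * lam α +
        (2 * (k:ℝ) ^ 2 + 2 * k * ((p ^ 2 : ℕ) : ℝ)) * ∑ σ, ε σ) ≤
        finrank ℚ K * (2 * p ^ 2 * lam α + 4 * p ^ 2 * (Y * ∑ σ, ε σ)) := by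
      apply mul_le_mul_of_nonneg_left _ hn0
      push_cast at h3 ⊢
      linarith
    have e : (finrank ℚ K * R + finrank ℚ K * (2 * p * (lam α + 2 * (Y * ∑ σ, ε σ)))) * (p:ℝ) =
        finrank ℚ K * R * p + finrank ℚ K * (2 * p ^ 2 * lam α + 4 * p ^ 2 * (Y * ∑ σ, ε σ)) := by ring
    rw [e]
    linarith

include hα h0 hroot hc in
/-- the main inequality for all primes -/
theorem main_ineq2 (P : Finset ℕ) (hP : ∀ p ∈ P, p.Prime) (hPc : ∀ p ∈ P, Good α p)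
    (hPY : ∀ p ∈ P, p ≤ Y) {T : ℝ} (hT : 0 ≤ T) {R : ℝ} (hR0 : 0 ≤ R)
    (hR : EE α ε 1 1 ≤ finrank ℚ K * R) :
    2 * T * ∑ p ∈ P, Real.log p ≤ (T ^ 2 + P.card) * R +
      (lam α + 2 * (Y * ∑ σ, ε σ)) *
        (2 * T * (∑ p ∈ P, (p : ℝ) + P.card) + 2 * P.card * ∑ p ∈ P, (p : ℝ)) := by
  classical
  set d := finrank ℚ K with hd
  have hd0 : 0 < d := finrank_pos
  set m := lam α + 2 * (Y * ∑ σ, ε σ) with hm
  have h1P : 1 ∉ P := fun h => Nat.not_prime_one (hP 1 h)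
  have hpsd := EN_psd (α := α) (ε := ε) (insert 1 P) (by
      intro p hp
      rw [Finset.mem_insert] at hp
      rcases hp with rfl | hp
      · exact one_pos
      · exact (hP p hp).pos) (fun p _ => eps_bd (α := α) hε hY1 hYS p) (fun p => if p = 1 then T else 1)
  rw [Finset.sum_insert h1P, Finset.sum_insert h1P] at hpsd
  have e2 : ∑ p ∈ P, ∑ q ∈ insert 1 P, (if p = 1 then T else 1) * (if q = 1 then T else 1) * EN α ε p q =
      ∑ p ∈ P, (T * EN α ε 1 p + ∑ q ∈ P, EN α ε p q) := by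
    refine Finset.sum_congr rfl fun p hp => ?_
    rw [Finset.sum_insert h1P, if_neg (hP p hp).ne_one, if_pos rfl, one_mul, EN_symm α ε p 1]
    congr 1
    refine Finset.sum_congr rfl fun q hq => ?_
    rw [if_neg (hP q hq).ne_one]
    ring
  have e3 : ∑ q ∈ P, (if (1:ℕ) = 1 then T else 1) * (if q = 1 then T else 1) * EN α ε 1 q =
      ∑ q ∈ P, T * EN α ε 1 q := by
    refine Finset.sum_congr rfl fun q hq => ?_
    rw [if_pos rfl, if_neg (hP q hq).ne_one]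
    ring
  rw [e2, e3, if_pos rfl, Finset.sum_add_distrib] at hpsd
  have hE11 : EN α ε 1 1 ≤ d * R := by
    have hc1 : CInj (α ^ 1) := by rw [pow_one]; exact hc
    have hr1 : rr α 1 = 1 := by unfold rr; rw [if_pos hc1]
    have he1 : eps α ε 1 = ε := by unfold eps; rw [if_pos hc1]
    unfold EN
    rw [hr1, he1, Nat.lcm_self, mul_one, Nat.cast_one, div_one]
    exact hR
  -- the bounds
  have b1 : ∀ p ∈ P, EN α ε 1 p ≤ - (d * Real.log p) + d * ((p + 1) * m) := fun p hp =>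
    EN_one hα h0 hroot hc hε hY1 hYS (hP p hp) (hPc p hp) (hPY p hp)
  have b2 : ∀ p ∈ P, ∀ q ∈ P, EN α ε p q ≤ d * ((p + q) * m) + (if p = q then d * R else 0) := by
    intro p hp q hq
    by_cases hpq : p = q
    · subst hpq
      rw [if_pos rfl]
      have h1 := EN_self hα h0 hc hε hY1 hYS (hP p hp) (hPc p hp) (hPY p hp) hR0 hR
      have e : (d:ℝ) * ((p + p) * m) = d * (2 * p * m) := by ring
      rw [e]
      linarith
    · rw [if_neg hpq, add_zero]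
      exact EN_ne hα h0 hroot hε hY1 hYS (hP p hp) (hP q hq) hpq (hPc p hp) (hPc q hq)
        (hPY p hp) (hPY q hq)
  have s1 : ∑ p ∈ P, T * EN α ε 1 p ≤
      T * (- (d * ∑ p ∈ P, Real.log p) + d * ((∑ p ∈ P, (p:ℝ) + P.card) * m)) := by
    calc ∑ p ∈ P, T * EN α ε 1 p ≤ ∑ p ∈ P, T * (- (d * Real.log p) + d * ((p + 1) * m)) :=
          Finset.sum_le_sum fun p hp => mul_le_mul_of_nonneg_left (b1 p hp) hT
      _ = _ := by
        rw [← Finset.mul_sum, Finset.sum_add_distrib, Finset.sum_neg_distrib, ← Finset.mul_sum,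
          ← Finset.mul_sum, ← Finset.sum_mul, Finset.sum_add_distrib]
        simp
  have s2 : ∑ p ∈ P, ∑ q ∈ P, EN α ε p q ≤
      d * (2 * P.card * (∑ p ∈ P, (p:ℝ)) * m) + P.card * (d * R) := by
    calc ∑ p ∈ P, ∑ q ∈ P, EN α ε p q
        ≤ ∑ p ∈ P, ∑ q ∈ P, (d * ((p + q) * m) + (if p = q then d * R else 0)) :=
          Finset.sum_le_sum fun p hp => Finset.sum_le_sum fun q hq => b2 p hp q hq
      _ = _ := by
        have e4 : ∀ p ∈ P, ∑ q ∈ P, ((d:ℝ) * ((p + q) * m) + (if p = q then d * R else 0)) =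
            d * ((P.card * p + ∑ q ∈ P, (q:ℝ)) * m) + d * R := by
          intro p hp
          rw [Finset.sum_add_distrib, Finset.sum_ite_eq, if_pos hp, ← Finset.mul_sum, ← Finset.sum_mul,
            Finset.sum_add_distrib]
          simp
        rw [Finset.sum_congr rfl e4, Finset.sum_add_distrib, ← Finset.mul_sum, ← Finset.sum_mul,
          Finset.sum_add_distrib, ← Finset.mul_sum]
        simp only [Finset.sum_const, nsmul_eq_mul]
        ring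
  have hd' : (0:ℝ) < d := by exact_mod_cast hd0
  have hTT : T * T * EN α ε 1 1 ≤ T * T * (d * R) := mul_le_mul_of_nonneg_left hE11 (by positivity)
  have hfin : (d:ℝ) * (2 * T * ∑ p ∈ P, Real.log p) ≤ d * ((T ^ 2 + P.card) * R +
      m * (2 * T * (∑ p ∈ P, (p : ℝ) + P.card) + 2 * P.card * ∑ p ∈ P, (p : ℝ))) := by
    have e5 : (d:ℝ) * ((T ^ 2 + P.card) * R +
      m * (2 * T * (∑ p ∈ P, (p : ℝ) + P.card) + 2 * P.card * ∑ p ∈ P, (p : ℝ))) =
      T * T * (d * R) + 2 * (T * (d * ((∑ p ∈ P, (p:ℝ) + P.card) * m))) +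
        (d * (2 * P.card * (∑ p ∈ P, (p:ℝ)) * m) + P.card * (d * R)) := by ring
    rw [e5]
    linarith
  exact le_of_mul_le_mul_left hfin hd'

end

end Pool.Agent.Y947.DM
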