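import Mathlib
import Pool.Agent.Y947.DL.Kum
import Pool.Agent.Y947.DM.Ineq

/-!
# Every odd prime is admissible
-/

set_option autoImplicit false

open Finset Polynomial Module IntermediateField Pool.Agent.H388SL Pool.Agent.Y947.DL

namespace Pool.Agent.Y947.DM

variable {K : Type*} [Field K] [NumberField K]

omit [NumberField K] in
lemma prim_of_ne_one {x : K} {q : ℕ} (hq : q.Prime) (h1 : x ^ q = 1) (hx : x ≠ 1) :
    IsPrimitiveRoot x q := by
  have h2 : orderOf x ∣ q := orderOf_dvd_of_pow_eq_one h1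
  rcases (Nat.dvd_prime hq).mp h2 with h3 | h3
  · exact absurd (orderOf_eq_one_iff.mp h3) hx
  · rw [← h3]; exact IsPrimitiveRoot.orderOf x

/-- if a field contains no root of unity of order `q` and an element `c` generates the same field as
`c ^ q`, then it generates the same field as `c ^ (q ^ 2)` -/
lemma pow_mem_of {c : K} {q : ℕ} (hq : q.Prime) (hq2 : q ≠ 2) (hc0 : c ≠ 0)
    (hcF : c ∈ adjoin ℚ {c ^ q}) (hno : ∀ ξ ∈ adjoin ℚ {c ^ q}, ξ ^ q = 1 → ξ = 1) :
    c ^ q ∈ adjoin ℚ {c ^ (q ^ 2)} := by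
  have hodd : Odd q := hq.odd_of_ne_two hq2
  obtain ⟨F', hF'⟩ : ∃ F', F' = adjoin ℚ {c ^ (q ^ 2)} := ⟨_, rfl⟩
  rw [← hF']
  obtain ⟨δ, hδ⟩ : ∃ δ, δ = c ^ q := ⟨_, rfl⟩
  have hδq : δ ^ q = c ^ (q ^ 2) := by rw [hδ, ← pow_mul, pow_two]
  have hδ0 : δ ≠ 0 := by rw [hδ]; exact pow_ne_zero _ hc0
  have haF : δ ^ q ∈ F' := by rw [hδq, hF']; exact mem_adjoin_simple_self ℚ _
  rw [← hδ] at hcF hno ⊢
  have hle : F' ≤ adjoin ℚ {δ} := by
    rw [hF', ← hδq, adjoin_simple_le_iff]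
    exact pow_mem (mem_adjoin_simple_self ℚ δ) q
  obtain ⟨a, ha⟩ : ∃ a : F', (a : K) = δ ^ q := ⟨⟨δ ^ q, haF⟩, rfl⟩
  by_cases hpow : ∃ b : F', b ^ q = a
  · obtain ⟨b, hb⟩ := hpow
    have hb' : (b : K) ^ q = δ ^ q := by
      rw [← ha, ← hb]; rfl
    have hb0 : (b : K) ≠ 0 := by
      intro h0
      rw [h0, zero_pow hq.ne_zero] at hb'
      exact pow_ne_zero q hδ0 hb'.symm
    have h1 : δ / (b : K) = 1 := by
      apply hno
      · exact div_mem (mem_adjoin_simple_self ℚ δ) (hle b.2)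
      · rw [div_pow, hb', div_self (pow_ne_zero q hδ0)]
    rw [div_eq_one_iff_eq hb0] at h1
    rw [h1]; exact b.2
  · exfalso
    push Not at hpow
    have hirr : Irreducible ((X : F'[X]) ^ q - C a) := X_pow_sub_C_irreducible_of_prime hq hpow
    have hmon : ((X : F'[X]) ^ q - C a).Monic := monic_X_pow_sub_C _ hq.ne_zero
    have hroot : aeval δ ((X : F'[X]) ^ q - C a) = 0 := by
      rw [map_sub, map_pow, aeval_X, aeval_C, IntermediateField.algebraMap_apply, ha, sub_self]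
    have hmin : (X : F'[X]) ^ q - C a = minpoly F' δ :=
      minpoly.eq_of_irreducible_of_monic hirr hroot hmon
    have hδF : IsIntegral F' δ := ⟨_, hmon, by rw [← Polynomial.aeval_def]; exact hroot⟩
    -- the norm of `c`
    have hcL : c ∈ adjoin F' {δ} := by
      have h1 : adjoin ℚ {δ} ≤ (adjoin F' {δ}).restrictScalars ℚ := by
        rw [adjoin_simple_le_iff]
        exact mem_adjoin_simple_self F' δ
      exact h1 hcF
    obtain ⟨c', hc'⟩ : ∃ c' : adjoin F' {δ}, (c' : K) = c := ⟨⟨c, hcL⟩, rfl⟩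
    have hcq : c' ^ q = AdjoinSimple.gen F' δ := by
      apply Subtype.val_injective
      have h2 : ((AdjoinSimple.gen F' δ : adjoin F' {δ}) : K) = δ := AdjoinSimple.coe_gen F' δ
      have h3 : (c' : K) ^ q = δ := by rw [hc']; exact hδ.symm
      exact h3.trans h2.symm
    have hnorm : Algebra.norm F' (AdjoinSimple.gen F' δ) = a := by
      have h1 := Algebra.PowerBasis.norm_gen_eq_coeff_zero_minpoly (adjoin.powerBasis hδF)
      rw [adjoin.powerBasis_gen hδF] at h1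
      have hmg : minpoly F' (AdjoinSimple.gen F' δ) = minpoly F' δ := minpoly_gen F' δ
      rw [h1, adjoin.powerBasis_dim, hmg, ← hmin, natDegree_X_pow_sub_C, hodd.neg_one_pow]
      simp [hq.ne_zero.symm]
    apply hpow (Algebra.norm F' c')
    rw [← map_pow, hcq, hnorm]

/-- every odd prime is admissible -/
theorem good_of_witness {α : K} (h0 : α ≠ 0) (hinj : CInj α) {q : ℕ} (hq : q.Prime)
    (hq2 : q ≠ 2) (hw : ∃ c ∈ adjoin ℚ {α ^ q}, c ^ q = α ^ q) : Good α q := by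
  by_cases hbad : CInj (α ^ q)
  · exact Or.inl hbad
  right
  obtain ⟨c, hcF, hc⟩ := hw
  have hc0 : c ≠ 0 := by
    intro h
    rw [h, zero_pow hq.ne_zero] at hc
    exact pow_ne_zero q h0 hc.symm
  have hαF : α ∉ adjoin ℚ {α ^ q} := fun h => hbad (CInj_of_mem hinj h)
  set ζ : K := α / c with hζ
  have hζ1 : ζ ^ q = 1 := by
    rw [hζ, div_pow, hc, div_self (pow_ne_zero q h0)]
  have hαζ : α = ζ * c := by rw [hζ]; field_simp
  have hζF : ζ ∉ adjoin ℚ {α ^ q} := by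
    intro h
    apply hαF
    have h1 := mul_mem h hcF
    rwa [← hαζ] at h1
  have hζne : ζ ≠ 1 := by
    intro h
    apply hζF
    rw [h]
    exact one_mem _
  have hprim : IsPrimitiveRoot ζ q := prim_of_ne_one hq hζ1 hζne
  refine ⟨hq2, ⟨ζ, hprim⟩, ?_⟩
  have hne : NeZero q := ⟨hq.ne_zero⟩
  -- no root of unity below
  have hno : ∀ ξ ∈ adjoin ℚ {c ^ q}, ξ ^ q = 1 → ξ = 1 := by
    intro ξ hξ hξ1
    rw [hc] at hξ
    by_contra hne1
    have hprim' := prim_of_ne_one hq hξ1 hne1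
    obtain ⟨i, _, hi⟩ := hprim'.eq_pow_of_pow_eq_one hζ1
    apply hζF
    rw [← hi]
    exact pow_mem hξ i
  have hmem := pow_mem_of hq hq2 hc0 (by rw [hc]; exact hcF) hno
  have hcc : c ^ (q ^ 2) = α ^ (q ^ 2) := by
    rw [pow_two, pow_mul, hc, ← pow_mul]
  rw [hcc, hc] at hmem
  have hFF : adjoin ℚ {α ^ (q ^ 2)} = adjoin ℚ {α ^ q} := by
    apply le_antisymm
    · rw [adjoin_simple_le_iff, pow_two, pow_mul]
      exact pow_mem (mem_adjoin_simple_self ℚ _) q
    · rw [adjoin_simple_le_iff]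
      exact hmem
  -- degrees
  have hcard : finrank ℚ (adjoin ℚ {α}) = finrank ℚ K := by
    have h1 : (adjoin ℚ {α}) = ⊤ := by
      by_contra hlt
      have h2 : adjoin ℚ {α} < ⊤ := lt_top_iff_ne_top.mpr hlt
      have h3 := two_mul_finrank_le h2
      have h4 : finrank ℚ (⊤ : IntermediateField ℚ K) = finrank ℚ K := finrank_top'
      have h5 : Function.Injective (fun σ : K →ₐ[ℚ] ℂ => σ α) := hinj
      have h6 : Fintype.card (K →ₐ[ℚ] ℂ) ≤ finrank ℚ (adjoin ℚ {α}) := by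
        classical
        have h7 : (Finset.univ.image (fun σ : K →ₐ[ℚ] ℂ => σ α)).card = Fintype.card (K →ₐ[ℚ] ℂ) :=
          Finset.card_image_of_injective _ h5
        rw [← h7, ← AlgHom.card ℚ (adjoin ℚ {α}) ℂ, ← Finset.card_univ]
        have h8 : Finset.univ.image (fun σ : K →ₐ[ℚ] ℂ => σ α) ⊆
            Finset.univ.image (fun σ : (adjoin ℚ {α}) →ₐ[ℚ] ℂ => σ (AdjoinSimple.gen ℚ α)) := by
          intro z hz
          rw [Finset.mem_image] at hz ⊢
          obtain ⟨σ, _, hσ⟩ := hz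
          exact ⟨σ.comp (adjoin ℚ {α}).val, Finset.mem_univ _, hσ⟩
        exact (Finset.card_le_card h8).trans Finset.card_image_le
      rw [AlgHom.card] at h6
      rw [h4] at h3
      have h9 : 0 < finrank ℚ K := finrank_pos
      omega
    rw [h1]
    exact finrank_top'
  have hadj : adjoin (adjoin ℚ {α ^ q}) {α} = adjoin (adjoin ℚ {α ^ q}) {ζ} := by
    have hcm : ∀ E : IntermediateField (adjoin ℚ {α ^ q}) K, c ∈ E := fun E =>
      E.algebraMap_mem ⟨c, hcF⟩
    apply le_antisymm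
    · rw [adjoin_simple_le_iff]
      have key : ∀ y : K, y = ζ * c → y ∈ adjoin (adjoin ℚ {α ^ q}) {ζ} := by
        intro y hy
        rw [hy]
        exact mul_mem (mem_adjoin_simple_self _ ζ) (hcm _)
      exact key α hαζ
    · rw [adjoin_simple_le_iff, hζ]
      exact div_mem (mem_adjoin_simple_self _ α) (hcm _)
  have h1 := fin_tower (α ^ q) α
  rw [adjoin_pair, hcard, hadj] at h1
  have h2 : finrank ℚ (adjoin ℚ {α ^ q}) * finrank (adjoin ℚ {α ^ q}) K = finrank ℚ K :=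
    finrank_mul_finrank _ _ _
  have h3 : 0 < finrank ℚ (adjoin ℚ {α ^ q}) := finrank_pos
  have h4 : finrank (adjoin ℚ {α ^ q}) K = finrank (adjoin ℚ {α ^ q}) (adjoin (adjoin ℚ {α ^ q}) {ζ}) := by
    apply Nat.eq_of_mul_eq_mul_left h3
    rw [h2, ← h1]
  have h5 := deg_root_of_unity (adjoin ℚ {α ^ q}) hq hprim
  have h6 : finrank (adjoin ℚ {α ^ q}) (adjoin (adjoin ℚ {α ^ q}) {ζ}) ≤ q - 1 := by
    apply Nat.le_of_dvd _ h5
    have := hq.one_lt
    omega
  rw [hFF, h4]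
  omega

end Pool.Agent.Y947.DM
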