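import Mathlib
import Pool.Agent.Y947.DL.Opt
import Pool.Agent.Y947.DM.Ineq

/-!
# Optimisation, all primes
-/

set_option autoImplicit false

open Finset Polynomial Module Pool.Agent.H388SL Pool.Agent.Y947.DL

namespace Pool.Agent.Y947.DM

variable {K : Type*} [Field K] [NumberField K]

/-- radii over a number field -/
lemma exists_radii2 {α : K} (h0 : α ≠ 0) (hunit : ∏ σ : K →ₐ[ℚ] ℂ, ‖σ α‖ = 1) (hlam : lam α ≤ 1)
    {b G L : ℝ} (hL : 1 + L ≤ b) (hG : b ^ 2 ≤ G) (hstd : Std L (fun σ : K →ₐ[ℚ] ℂ => H388SL.refl (σ α)))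
    (hLn : L ≤ 3 * finrank ℚ K) :
    ∃ ε : (K →ₐ[ℚ] ℂ) → ℝ, (∀ σ, 0 < ε σ ∧ ε σ ≤ 1 / 2) ∧ ∑ σ, ε σ ≤ 63000000 * b / G ^ 5 ∧
      EE α ε 1 1 ≤ finrank ℚ K * (10 ^ 10 * b * (1 + Real.log G)) := by
  set d := finrank ℚ K with hd
  have hd0 : 0 < d := finrank_pos
  have hcard : Fintype.card (K →ₐ[ℚ] ℂ) = d := AlgHom.card ℚ K ℂ
  have hL0 : 0 < L := by
    have := hstd.hpos 0 (by simp)
    rwa [HH_zero] at this
  have hb1 : 1 ≤ b := by linarith
  have hG1 : 1 ≤ G := by nlinarith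
  have hG0 : 0 < G := by linarith
  have hδ := delta_le h0 hunit
  set W := 1 + L + ∑ σ : K →ₐ[ℚ] ℂ, (1 - ‖H388SL.refl (σ α)‖) with hW
  have hW3 : W ≤ 3 * b := by linarith
  have hW0 : 0 < W := by
    have : 0 ≤ ∑ σ : K →ₐ[ℚ] ℂ, (1 - ‖H388SL.refl (σ α)‖) :=
      Finset.sum_nonneg fun σ _ => by linarith [norm_refl_le (σ α)]
    linarith
  set κ := 1 / G ^ 5 with hκ
  have hκ0 : 0 < κ := by positivity
  have hκ1 : κ ≤ 1 := by
    rw [hκ, div_le_one (by positivity)]; exact one_le_pow₀ hG1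
  obtain ⟨ε, hε, hη, hS⟩ := contract hstd (by rw [hcard]; exact hd0) (by rw [hcard]; exact hLn) hκ0 hκ1
  rw [hcard] at hS
  rw [← hW] at hη hS
  have hlogG : 0 ≤ Real.log G := Real.log_nonneg hG1
  have hlogκ : Real.log (1 / κ) = 5 * Real.log G := by
    rw [hκ, one_div_one_div, Real.log_pow]; norm_num
  refine ⟨ε, hε, ?_, ?_⟩
  · refine hη.trans ?_
    rw [hκ, div_mul_eq_mul_div, one_mul]
    apply div_le_div_of_nonneg_right _ (by positivity)
    linarith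
  · have e1 : EE α ε 1 1 = ∑ i : K →ₐ[ℚ] ℂ, ∑ j : K →ₐ[ℚ] ℂ,
        -Real.log ‖1 - (((1 - ε i) * (1 - ε j) : ℝ) : ℂ) *
          (H388SL.refl (i α) * starRingEnd ℂ (H388SL.refl (j α)))‖ := by
      unfold EE
      refine Finset.sum_congr rfl fun σ _ => Finset.sum_congr rfl fun τ _ => ?_
      rw [ww_mul α ε σ τ one_ne_zero one_ne_zero, pow_one, pow_one, pow_one]
    rw [e1]
    refine hS.trans ?_
    apply mul_le_mul_of_nonneg_left _ (Nat.cast_nonneg _)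
    rw [hlogκ]
    calc 630000000 * W * (1 + 5 * Real.log G) ≤ 630000000 * (3 * b) * (5 * (1 + Real.log G)) := by
          apply mul_le_mul (by linarith) (by linarith) (by positivity) (by positivity)
      _ = 9450000000 * (b * (1 + Real.log G)) := by ring
      _ ≤ 10 ^ 10 * b * (1 + Real.log G) := by
        rw [mul_assoc ((10:ℝ) ^ 10)]
        apply mul_le_mul_of_nonneg_right _ (by positivity)
        norm_num

/-- the remaining contraction is negligible -/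
lemma contraction_small {B G l Y S : ℝ} (hB : 1 ≤ B) (hG : B ^ 2 ≤ G) (hG80 : 10 ^ 80 ≤ G)
    (hl : l = 1 + Real.log G) (hY : Y ≤ 10 ^ 24 * G * l + 1) (hS0 : 0 ≤ S)
    (hS : S ≤ 63000000 * B / G ^ 5) :
    2 * (Y * S) ≤ (9 / 10) * (10 ^ (-40 : ℤ) / (B * G)) ∧ Y * S ≤ 1 / 2 := by
  have hG0 : 0 < G := lt_of_lt_of_le (by positivity) hG80
  have hG1 : 1 ≤ G := by
    refine le_trans ?_ hG80
    norm_num
  have hlG : l ≤ G := by
    have := Real.log_le_sub_one_of_pos hG0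
    linarith
  have hY2 : Y ≤ 10 ^ 25 * G ^ 2 := by
    have h3 : (10:ℝ) ^ 24 * G * l ≤ 10 ^ 24 * G * G := mul_le_mul_of_nonneg_left hlG (by positivity)
    have h4 : (1:ℝ) ≤ G ^ 2 := one_le_pow₀ hG1
    have h5 : (1:ℝ) ≤ 10 ^ 24 * G ^ 2 := by nlinarith
    have e : (10:ℝ) ^ 25 * G ^ 2 = 10 * (10 ^ 24 * G ^ 2) := by ring
    have e2 : (10:ℝ) ^ 24 * G * G = 10 ^ 24 * G ^ 2 := by ring
    rw [e]
    rw [e2] at h3
    linarith
  have h1 : Y * S ≤ 10 ^ 25 * G ^ 2 * (63000000 * B / G ^ 5) := by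
    calc Y * S ≤ 10 ^ 25 * G ^ 2 * S := mul_le_mul_of_nonneg_right hY2 hS0
      _ ≤ _ := mul_le_mul_of_nonneg_left hS (by positivity)
  have e1 : 10 ^ 25 * G ^ 2 * (63000000 * B / G ^ 5) = 63 * 10 ^ 31 * B / G ^ 3 := by
    field_simp
    norm_num
  rw [e1] at h1
  have hBG : B * B ≤ G := by nlinarith
  have h2 : 63 * 10 ^ 31 * B / G ^ 3 ≤ (9 / 20) * (10 ^ (-40 : ℤ) / (B * G)) := by
    rw [← mul_div_assoc, div_le_div_iff₀ (by positivity) (by positivity)]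
    have h3 : 63 * 10 ^ 31 * B * (B * G) ≤ 63 * 10 ^ 31 * (G * G) := by
      have e : 63 * 10 ^ 31 * B * (B * G) = 63 * 10 ^ 31 * ((B * B) * G) := by ring
      rw [e]
      apply mul_le_mul_of_nonneg_left _ (by norm_num)
      exact mul_le_mul_of_nonneg_right hBG hG0.le
    refine h3.trans ?_
    have e2 : (9 / 20 * 10 ^ (-40 : ℤ) * G ^ 3 : ℝ) = (9 / 20 * 10 ^ (-40 : ℤ) * G) * (G * G) := by ring
    rw [e2]
    apply mul_le_mul_of_nonneg_right _ (by positivity)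
    have h3 : (9 / 20 * 10 ^ (-40 : ℤ) : ℝ) * 10 ^ 80 ≤ 9 / 20 * 10 ^ (-40 : ℤ) * G :=
      mul_le_mul_of_nonneg_left hG80 (by positivity)
    refine le_trans ?_ h3
    norm_num
  constructor
  · linarith
  · refine (h1.trans h2).trans ?_
    have h4 : (10 ^ (-40 : ℤ) / (B * G) : ℝ) ≤ 1 := by
      rw [div_le_one (by positivity)]
      have : (1:ℝ) ≤ B * G := by nlinarith
      refine le_trans ?_ this
      norm_num
    linarith

/-- the bound over a number field -/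
theorem field_main2 : ∃ c : ℝ, 0 < c ∧ ∀ (K : Type) [Field K] [NumberField K] (α : K), IsIntegral ℤ α →
    α ≠ 0 → (∀ n : ℕ, 0 < n → α ^ n ≠ 1) → CInj α → (∏ σ : K →ₐ[ℚ] ℂ, ‖σ α‖ = 1) →
    (∀ p : ℕ, p.Prime → p ≠ 2 → Good α p) →
    ∀ B L : ℝ, 1 + L ≤ B → Std L (fun σ : K →ₐ[ℚ] ℂ => H388SL.refl (σ α)) →
    L ≤ 3 * finrank ℚ K → c / B ^ 3 ≤ lam α := by
  obtain ⟨Y0, hY01, hY0⟩ := exists_Y0
  set b0 : ℝ := max (10 ^ 80) Y0 with hb0
  have hb80 : (10:ℝ) ^ 80 ≤ b0 := le_max_left _ _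
  have hb48 : (10:ℝ) ^ 48 ≤ b0 := by
    refine le_trans ?_ hb80
    norm_num
  have hbY0 : (Y0:ℝ) ≤ b0 := le_max_right _ _
  have hb0pos : 0 < b0 := by linarith [show (0:ℝ) < 10 ^ 48 by positivity]
  refine ⟨10 ^ (-41 : ℤ) / b0, by positivity, ?_⟩
  intro K _ _ α hα h0 hroot hc hunit hgood B L hBL hstd hLn
  classical
  have hL0 : 0 < L := by
    have := hstd.hpos 0 (by simp)
    rwa [HH_zero] at this
  have hB1 : 1 ≤ B := by linarith
  have hlam0 := lam_nonneg α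
  set G' := b0 * B ^ 2 with hG'
  have hb01 : 1 ≤ b0 := by
    refine le_trans ?_ hb48
    norm_num
  have hB2 : 1 ≤ B ^ 2 := one_le_pow₀ hB1
  have hb0G' : b0 ≤ G' := by rw [hG']; nlinarith
  have hBG' : B ^ 2 ≤ G' := by rw [hG']; nlinarith
  have hG'1 : 1 ≤ G' := by linarith
  have hG'0 : 0 < G' := by linarith
  have hgoal : 10 ^ (-41 : ℤ) / b0 / B ^ 3 = 10 ^ (-41 : ℤ) / (B * G') := by
    rw [hG', div_div]
    congr 1
    ring
  rw [hgoal]
  by_cases hbig : 1 ≤ lam α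
  · refine le_trans ?_ hbig
    rw [div_le_one (by positivity)]
    have h1 : (1:ℝ) ≤ B * G' := by nlinarith
    refine le_trans ?_ h1
    norm_num
  push Not at hbig
  obtain ⟨ε, hε, hη, hEE⟩ := exists_radii2 h0 hunit hbig.le hBL hBG' hstd hLn
  set l := 1 + Real.log G' with hl
  set R := 10 ^ 10 * B * l with hR
  have hη0 : 0 ≤ ∑ σ, ε σ := Finset.sum_nonneg fun σ _ => (hε σ).1.le
  have hlpos : 0 < l := by
    have := Real.log_nonneg hG'1
    linarith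
  -- choice of Y
  set Y : ℕ := ⌈10 ^ 24 * G' * l⌉₊ with hYdef
  have hYge : 10 ^ 24 * G' * l ≤ Y := Nat.le_ceil _
  have hYle : (Y:ℝ) ≤ 10 ^ 24 * G' * l + 1 := (Nat.ceil_lt_add_one (by positivity)).le
  obtain ⟨hl1, hYb0, hY2', hlY, hlogY, hlR, hbadY⟩ := Y_facts hB1 hb48 hb0G' hl hR hYge hYle
  obtain ⟨hsmall, hYS⟩ := contraction_small hB1 hBG' (hb80.trans hb0G') hl hYle hη0 hη
  have hY2 : 2 ≤ Y := by exact_mod_cast hY2'
  have hY1' : (1:ℝ) ≤ Y := by linarith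
  have hY0Y : Y0 ≤ Y := by exact_mod_cast hbY0.trans hYb0
  have hY1 : 1 ≤ Y := by omega
  have hY8 : 8 ≤ Y := by
    have h8 : (8:ℝ) ≤ b0 := by
      refine le_trans ?_ hb48
      norm_num
    exact_mod_cast h8.trans hYb0
  set P := blk Y with hP
  have hlogY0 : 0 ≤ Real.log Y := Real.log_nonneg hY1'
  have hlogp : ∀ p ∈ P, Real.log p ≤ Real.log Y := by
    intro p hp
    have h1 := mem_blk.mp hp
    apply Real.log_le_log
    · exact_mod_cast h1.1.pos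
    · exact_mod_cast h1.2.2
  have hθ : (Y:ℝ) / 16 ≤ ∑ p ∈ P, Real.log p := by
    have h1 := blk_sum hY0 Y hY0Y hY1
    linarith
  have hPcard : (P.card : ℝ) ≤ Nat.primeCounting Y := by
    have h1 : P.card ≤ Nat.primeCounting Y := by
      rw [Nat.primeCounting, Nat.primeCounting', Nat.count_eq_card_filter_range]
      apply Finset.card_le_card
      intro p hp
      have h3 := mem_blk.mp hp
      rw [Finset.mem_filter, Finset.mem_range]
      exact ⟨by omega, h3.1⟩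
    exact_mod_cast h1
  have hqY : (P.card : ℝ) * Real.log Y ≤ 4 * Y :=
    (mul_le_mul_of_nonneg_right hPcard hlogY0).trans (pi_le_nat hY2)
  have hθq : ∑ p ∈ P, Real.log p ≤ P.card * Real.log Y := by
    rw [← nsmul_eq_mul]
    apply Finset.sum_le_card_nsmul
    intro p hp
    exact hlogp p hp
  have hPpos : (0:ℝ) < P.card := by
    by_contra hc
    push Not at hc
    have h1 : (P.card : ℝ) * Real.log Y ≤ 0 := mul_nonpos_of_nonpos_of_nonneg hc hlogY0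
    have : (0:ℝ) < Y / 16 := by linarith
    linarith
  have hs : ∑ p ∈ P, (p : ℝ) ≤ P.card * Y := by
    rw [← nsmul_eq_mul]
    apply Finset.sum_le_card_nsmul
    intro p hp
    exact_mod_cast (mem_blk.mp hp).2.2
  have hs0 : 0 ≤ ∑ p ∈ P, (p : ℝ) := Finset.sum_nonneg fun _ _ => Nat.cast_nonneg _
  have hRpos : 0 < R := by rw [hR]; positivity
  have hθ0 : 0 ≤ ∑ p ∈ P, Real.log p := by linarith
  have hmain := main_ineq2 hα h0 hroot hc (fun σ => (hε σ).1) hY1 hYS P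
    (fun p hp => (mem_blk.mp hp).1)
    (fun p hp => hgood p (mem_blk.mp hp).1 (by
      have := (mem_blk.mp hp).2.1
      omega))
    (fun p hp => (mem_blk.mp hp).2.2)
    (T := (∑ p ∈ P, Real.log p) / (2 * R)) (by positivity) hRpos.le hEE
  have hfin := final_real hB1 hBG' hl1 hR hYge hYle hlY hlR hθ hPpos hqY hθq hs hs0 rfl
    (by positivity : 0 ≤ lam α + 2 * (Y * ∑ σ, ε σ)) hmain
  have e3 : (10 ^ (-41 : ℤ) / (B * G') : ℝ) = (1 / 10) * (10 ^ (-40 : ℤ) / (B * G')) := by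
    rw [← mul_div_assoc]
    congr 1
    norm_num
  rw [e3]
  linarith

end Pool.Agent.Y947.DM
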