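import Mathlib
import Pool.Agent.Y947.DL.Fin
import Pool.Agent.Y947.DM.Opt
import Pool.Agent.Y947.DM.Kum

/-!
# Lower bounds for Mahler measures in terms of the size of the polynomial on the unit circle,
without exceptions
-/

set_option autoImplicit false

open Finset Polynomial Module IntermediateField Pool.Agent.H388SL Pool.Agent.Y947.DL

namespace Pool.Agent.Y947.DM

/-- the bound for a represented polynomial -/
lemma rep_main2 {c : ℝ} (hc : ∀ (K : Type) [Field K] [NumberField K] (α : K), IsIntegral ℤ α →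
    α ≠ 0 → (∀ n : ℕ, 0 < n → α ^ n ≠ 1) → CInj α → (∏ σ : K →ₐ[ℚ] ℂ, ‖σ α‖ = 1) →
    (∀ p : ℕ, p.Prime → p ≠ 2 → Good α p) →
    ∀ B L : ℝ, 1 + L ≤ B → Std L (fun σ : K →ₐ[ℚ] ℂ => H388SL.refl (σ α)) →
    L ≤ 3 * finrank ℚ K → c / B ^ 3 ≤ lam α)
    {p : ℤ[X]} {K : Type} [Field K] [NumberField K] {α : K} (h : Rep p K α)
    (hc0 : |p.coeff 0| = 1) (hM : 1 < MM p) {B : ℝ}
    (hB : ∀ z : ℂ, ‖z‖ = 1 → ‖aeval z p‖ ≤ Real.exp B)
    (hgood : ∀ q : ℕ, q.Prime → q ≠ 2 → Good α q) :
    c / (2 + B) ^ 3 ≤ Real.log (MM p) := by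
  have hn : 1 ≤ finrank ℚ K := finrank_pos
  have hn' : (1:ℝ) ≤ finrank ℚ K := by exact_mod_cast hn
  rw [h.log_MM]
  apply hc K α h.isInt (h.ne_zero hc0) (h.not_root hM) h.inj (h.prod_norm hc0) hgood (2 + B)
    (min B (finrank ℚ K * Real.log 2) + 1) _ (h.std hB) _
  · have := min_le_left B (finrank ℚ K * Real.log 2)
    linarith
  · have h1 := min_le_right B (finrank ℚ K * Real.log 2)
    have h2 := Real.log_two_lt_d9
    nlinarith

/-- monic units -/
theorem monic_case2 : ∃ c : ℝ, 0 < c ∧ ∀ f : ℤ[X], Irreducible f → f.Monic → |f.coeff 0| = 1 →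
    1 < MM f → ∀ B : ℝ, SupLe f B → c / (2 + B) ^ 3 ≤ Real.log (MM f) := by
  obtain ⟨c, hc0, hcm⟩ := field_main2
  refine ⟨c, hc0, ?_⟩
  have ind : ∀ n : ℕ, ∀ f : ℤ[X], f.natDegree = n → Irreducible f → f.Monic → |f.coeff 0| = 1 →
      1 < MM f → ∀ B : ℝ, SupLe f B → c / (2 + B) ^ 3 ≤ Real.log (MM f) := by
    intro n
    induction n using Nat.strong_induction_on with
    | _ n ih =>
      intro f hfn hf hm hf0 hM B hsup
      by_cases hexp : ∃ q : ℕ, q.Prime ∧ ∃ g : ℤ[X], f = expand ℤ q g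
      · obtain ⟨q, hq, g, hg⟩ := hexp
        have hgirr : Irreducible g := of_irreducible_expand hq.ne_zero (by rw [← hg]; exact hf)
        have hgm : g.Monic := by
          have h1 := hm
          rw [hg, Monic, leadingCoeff_expand hq.pos] at h1
          exact h1
        have hMM : MM f = MM g := by rw [hg, MM_expand hq.pos]
        have hg0 : |g.coeff 0| = 1 := by
          rw [hg, coeff_expand hq.pos, if_pos (dvd_zero q), Nat.zero_div] at hf0
          exact hf0
        have hg1 : g.natDegree ≠ 0 := natDegree_ne (by rw [← hMM]; exact hM) hgm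
        have hgd : g.natDegree < n := by
          rw [← hfn, hg, natDegree_expand]
          have := hq.two_le
          have h2 : 0 < g.natDegree := Nat.pos_of_ne_zero hg1
          nlinarith
        have h1 := ih g.natDegree hgd g rfl hgirr hgm hg0 (by rw [← hMM]; exact hM) B
          (SupLe.of_expand hq.pos (by rw [← hg]; exact hsup))
        rw [hMM]
        exact h1
      · push Not at hexp
        obtain ⟨z, hz⟩ := exists_zero hM hm
        obtain ⟨hNF, hrep⟩ := exists_rep f hf hm z hz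
        apply rep_main2 hcm hrep hf0 hM hsup
        intro q hq hq2
        exact good_of_witness (hrep.ne_zero hf0) hrep.inj hq hq2 (hrep.witness hq (hexp q hq))
  intro f hf hm hf0 hM B hsup
  exact ind _ f rfl hf hm hf0 hM B hsup

/-- the general irreducible case -/
theorem irr_case2 : ∃ c : ℝ, 0 < c ∧ ∀ f : ℤ[X], Irreducible f →
    1 < MM f → ∀ B : ℝ, 0 ≤ B → SupLe f B → c / (1 + B) ^ 3 ≤ Real.log (MM f) := by
  obtain ⟨c1, hc1, hc⟩ := monic_case2
  have hlog2 : 0 < Real.log 2 := Real.log_pos (by norm_num)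
  set c := min (c1 / 8) (Real.log 2) with hcdef
  have hc0 : 0 < c := lt_min (by positivity) hlog2
  refine ⟨c, hc0, ?_⟩
  intro f hf hM B hB hsup
  have hcmp : c / (1 + B) ^ 3 ≤ c1 / (2 + B) ^ 3 := by
    have h1 : c ≤ c1 / 8 := min_le_left _ _
    have h2 : (2 + B) ^ 3 ≤ 8 * (1 + B) ^ 3 := by
      have h3 : (2 + B) ^ 3 ≤ (2 * (1 + B)) ^ 3 := pow_le_pow_left₀ (by linarith) (by linarith) 3
      calc (2 + B) ^ 3 ≤ (2 * (1 + B)) ^ 3 := h3
        _ = 8 * (1 + B) ^ 3 := by ring
    rw [div_le_div_iff₀ (by positivity) (by positivity)]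
    calc c * (2 + B) ^ 3 ≤ (c1 / 8) * (8 * (1 + B) ^ 3) := by
          apply mul_le_mul h1 h2 (by positivity) (by positivity)
      _ = c1 * (1 + B) ^ 3 := by ring
  by_cases hbig : 2 ≤ MM f
  · have h1 : c ≤ Real.log 2 := min_le_right _ _
    have h2 : Real.log 2 ≤ Real.log (MM f) := Real.log_le_log (by norm_num) hbig
    have h3 : c / (1 + B) ^ 3 ≤ c := by
      apply div_le_self hc0.le
      exact one_le_pow₀ (by linarith)
    linarith
  push Not at hbig
  have hf0 : f ≠ 0 := hf.ne_zero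
  have hlc : |f.leadingCoeff| = 1 := by
    have h1 : 1 ≤ |f.leadingCoeff| := Int.one_le_abs (leadingCoeff_ne_zero.mpr hf0)
    have h3 := leadingCoeff_le_MM f
    by_contra hne
    have h2 : 2 ≤ |f.leadingCoeff| := by omega
    have h4 : (2:ℝ) ≤ |(f.leadingCoeff : ℝ)| := by exact_mod_cast h2
    linarith
  have hcc : |f.coeff 0| = 1 := by
    have h0 : f.coeff 0 ≠ 0 := by
      intro h
      have hdvd : (X : ℤ[X]) ∣ f := X_dvd_iff.mpr h
      obtain ⟨g, hg⟩ := hdvd
      rcases hf.isUnit_or_isUnit hg with h1 | h1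
      · exact Polynomial.not_isUnit_X h1
      · have h2 : MM f = 1 := by
          rw [hg, MM_mul]
          obtain ⟨r, hr, hrg⟩ := Polynomial.isUnit_iff.mp h1
          have h3 : MM (X : ℤ[X]) = 1 := by
            rw [MM, Polynomial.map_X]
            have := mahlerMeasure_X_sub_C 0
            simpa using this
          have h4 : MM g = 1 := by
            rw [← hrg, MM, Polynomial.map_C, mahlerMeasure_const, eq_intCast, Complex.norm_intCast]
            rcases Int.isUnit_iff.mp hr with h5 | h5 <;> simp [h5]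
          rw [h3, h4, one_mul]
        linarith
    have h1 : 1 ≤ |f.coeff 0| := Int.one_le_abs h0
    have h3 := coeff_zero_le_MM f
    by_contra hne
    have h2 : 2 ≤ |f.coeff 0| := by omega
    have h4 : (2:ℝ) ≤ |(f.coeff 0 : ℝ)| := by exact_mod_cast h2
    linarith
  rcases (abs_eq (by norm_num : (0:ℤ) ≤ 1)).mp hlc with h | h
  · exact hcmp.trans (hc f hf h hcc hM B hsup)
  · have h1 := hc (-f) (by simpa using (irreducible_units_mul (-1 : ℤ[X]ˣ)).mpr hf) (by
        rw [Monic, leadingCoeff_neg, h]; norm_num) (by rw [coeff_neg, abs_neg]; exact hcc)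
      (by rw [MM_neg]; exact hM) B hsup.neg
    rw [MM_neg] at h1
    exact hcmp.trans h1

end Pool.Agent.Y947.DM
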